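import Mathlib

/-!
Definitions for the nodal count problem on the square with Neumann boundary conditions.
-/

namespace Pool.Agent.H82.Nodal

open Real Set

/-- the open square `(0, π)²` -/
def Square : Set (ℝ × ℝ) := Ioo 0 π ×ˢ Ioo 0 π

/-- the function `cos m x cos n y` -/
noncomputable def cc (m n : ℕ) : ℝ × ℝ → ℝ := fun z => cos (m * z.1) * cos (n * z.2)

/-- the eigenspace: the span of all `cos m x cos n y` with `m ^ 2 + n ^ 2 = lam` -/
def eigenspace (lam : ℝ) : Submodule ℝ (ℝ × ℝ → ℝ) :=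
  Submodule.span ℝ {f | ∃ m n : ℕ, (m : ℝ) ^ 2 + (n : ℝ) ^ 2 = lam ∧ f = cc m n}

/-- the number of nodal domains: connected components of the square minus the zero set -/
noncomputable def nodalCount (u : ℝ × ℝ → ℝ) : ℕ∞ :=
  ENat.card (ConnectedComponents {z : ℝ × ℝ // z ∈ Square ∧ u z ≠ 0})

/-- `Φ^θ_{p,q}` -/
noncomputable def Phi (p q : ℕ) (θ : ℝ) : ℝ × ℝ → ℝ :=
  fun z => cos θ * (cos (p * z.1) * cos (q * z.2)) + sin θ * (cos (q * z.1) * cos (p * z.2))

end Pool.Agent.H82.Nodal
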