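import Pool.Agent.H82.NodalTop

/-!
Lower bound for the product function, symmetry, linear algebra of the eigenspace.
-/

namespace Pool.Agent.H82.Nodal

open Real Set

noncomputable section

/-- sample points -/
def samp (p i : ℕ) : ℝ := (i + 1 / 2) * π / (p + 1)

theorem samp_pos (p i : ℕ) : 0 < samp p i := by
  unfold samp; positivity

theorem samp_lt {p i : ℕ} (hi : i < p + 1) : samp p i < π := by
  unfold samp
  rw [div_lt_iff₀ (by positivity)]
  have : (i : ℝ) + 1 ≤ p + 1 := by exact_mod_cast hi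
  nlinarith [pi_pos]

theorem cos_samp_ne {p i : ℕ} (hi : i < p + 1) : cos (p * samp p i) ≠ 0 := by
  have h1 : (p : ℝ) * samp p i = (π / 2 - samp p i) + (i : ℤ) * π := by
    unfold samp; push_cast; field_simp; ring
  rw [h1, cos_add_int_mul_pi, cos_pi_div_two_sub]
  apply mul_ne_zero (zpow_ne_zero _ (by norm_num))
  exact (sin_pos_of_pos_of_lt_pi (samp_pos p i) (samp_lt hi)).ne'

/-- a preconnected set on which `cos (p x)` does not vanish has at most one sample abscissa -/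
theorem samp_sep {p i i' : ℕ} (hi' : i' < p + 1) (hlt : i < i')
    {C : Set ℝ} (hC : IsPreconnected C) (h1 : samp p i ∈ C) (h2 : samp p i' ∈ C)
    (hne : ∀ x ∈ C, cos (p * x) ≠ 0) : False := by
  have hp : 0 < p := by omega
  have hp' : (0 : ℝ) < p := by exact_mod_cast hp
  have hip : (i : ℝ) + 1 ≤ p := by exact_mod_cast (by omega : i + 1 ≤ p)
  have hii : (i : ℝ) + 1 ≤ i' := by exact_mod_cast hlt
  have hmem : ((i : ℝ) + 1 / 2) * π / p ∈ Icc (samp p i) (samp p i') := by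
    constructor
    · unfold samp
      apply div_le_div_of_nonneg_left (by positivity) hp'
      linarith
    · unfold samp
      rw [div_le_div_iff₀ hp' (by positivity)]
      have : ((i : ℝ) + 1 / 2) * (p + 1) ≤ (i' + 1 / 2) * p := by nlinarith
      nlinarith [pi_pos]
  have hz := hC.ordConnected.out h1 h2 hmem
  apply hne _ hz
  have : (p : ℝ) * (((i : ℝ) + 1 / 2) * π / p) = π / 2 + (i : ℤ) * π := by
    push_cast; field_simp; ring
  rw [this, cos_add_int_mul_pi, cos_pi_div_two, mul_zero]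

theorem le_nodalCount_cc (p q : ℕ) : ((p + 1) * (q + 1) : ℕ) ≤ nodalCount (cc p q) := by
  set X := {z : ℝ × ℝ // z ∈ Square ∧ cc p q z ≠ 0} with hX
  have hpt : ∀ ij : Fin (p + 1) × Fin (q + 1),
      (samp p ij.1, samp q ij.2) ∈ Square ∧ cc p q (samp p ij.1, samp q ij.2) ≠ 0 := by
    rintro ⟨i, j⟩
    refine ⟨⟨⟨samp_pos _ _, samp_lt i.2⟩, ⟨samp_pos _ _, samp_lt j.2⟩⟩, ?_⟩
    exact mul_ne_zero (cos_samp_ne i.2) (cos_samp_ne j.2)
  let f : Fin (p + 1) × Fin (q + 1) → ConnectedComponents X :=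
    fun ij => ConnectedComponents.mk (⟨(samp p ij.1, samp q ij.2), hpt ij⟩ : X)
  have hinj : Function.Injective f := by
    have key : ∀ ij kl : Fin (p + 1) × Fin (q + 1), f ij = f kl →
        ¬ ij.1 < kl.1 ∧ ¬ ij.2 < kl.2 := by
      intro ij kl h
      have hmem := ConnectedComponents.coe_eq_coe'.1 h
      have hself : (⟨(samp p kl.1, samp q kl.2), hpt kl⟩ : X) ∈
        connectedComponent (⟨(samp p kl.1, samp q kl.2), hpt kl⟩ : X) := mem_connectedComponent
      set C := connectedComponent (⟨(samp p kl.1, samp q kl.2), hpt kl⟩ : X) with hC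
      have hpre : IsPreconnected C := isPreconnected_connectedComponent
      constructor
      · intro hlt
        have h1 : IsPreconnected ((fun x : X => x.1.1) '' C) :=
          hpre.image _ (by fun_prop)
        refine samp_sep kl.1.2 (Fin.lt_def.1 hlt) h1 ⟨_, hmem, rfl⟩ ⟨_, hself, rfl⟩ ?_
        rintro _ ⟨x, _, rfl⟩ h0
        apply x.2.2
        show cos (p * x.1.1) * cos (q * x.1.2) = 0
        rw [h0, zero_mul]
      · intro hlt
        have h1 : IsPreconnected ((fun x : X => x.1.2) '' C) :=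
          hpre.image _ (by fun_prop)
        refine samp_sep kl.2.2 (Fin.lt_def.1 hlt) h1 ⟨_, hmem, rfl⟩ ⟨_, hself, rfl⟩ ?_
        rintro _ ⟨x, _, rfl⟩ h0
        apply x.2.2
        show cos (p * x.1.1) * cos (q * x.1.2) = 0
        rw [h0, mul_zero]
    intro ij kl h
    have h1 := key ij kl h
    have h2 := key kl ij h.symm
    exact Prod.ext (le_antisymm (not_lt.1 h2.1) (not_lt.1 h1.1))
      (le_antisymm (not_lt.1 h2.2) (not_lt.1 h1.2))
  have h := ENat.card_le_card_of_injective hinj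
  rw [ENat.card_eq_coe_fintype_card] at h
  simpa [nodalCount] using h

/-! ### dependence on the zero set only; swapping -/

/-- a homeomorphism induces a bijection on connected components -/
def compEquiv {X Y : Type*} [TopologicalSpace X] [TopologicalSpace Y] (e : X ≃ₜ Y) :
    ConnectedComponents X ≃ ConnectedComponents Y where
  toFun := e.continuous.connectedComponentsMap
  invFun := e.symm.continuous.connectedComponentsMap
  left_inv := by
    intro c
    obtain ⟨x, rfl⟩ := ConnectedComponents.surjective_coe c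
    show ConnectedComponents.mk (e.symm (e x)) = _
    rw [e.symm_apply_apply]
  right_inv := by
    intro c
    obtain ⟨x, rfl⟩ := ConnectedComponents.surjective_coe c
    show ConnectedComponents.mk (e (e.symm x)) = _
    rw [e.apply_symm_apply]

theorem nodalCount_congr {u v : ℝ × ℝ → ℝ} (h : ∀ z, u z ≠ 0 ↔ v z ≠ 0) :
    nodalCount u = nodalCount v := by
  unfold nodalCount
  apply ENat.card_congr
  apply compEquiv
  refine (Homeomorph.refl (ℝ × ℝ)).subtype ?_
  intro z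
  rw [h z]; rfl

theorem nodalCount_swap (u : ℝ × ℝ → ℝ) : nodalCount (fun z => u z.swap) = nodalCount u := by
  unfold nodalCount
  apply ENat.card_congr
  apply compEquiv
  refine (Homeomorph.prodComm ℝ ℝ).subtype ?_
  rintro ⟨x, y⟩
  simp only [Square, mem_prod, Homeomorph.coe_prodComm, Prod.swap_prod_mk]
  tauto

/-! ### the eigenspace -/

theorem cc_ne_zero (m n : ℕ) : cc m n ≠ 0 := by
  intro h
  have := congrFun h (0, 0)
  simp [cc] at this

/-- the symmetrised shift in the first variable -/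
def shiftOp (h : ℝ) : (ℝ × ℝ → ℝ) →ₗ[ℝ] (ℝ × ℝ → ℝ) where
  toFun f := fun z => f (z.1 + h, z.2) + f (z.1 - h, z.2)
  map_add' f g := by ext z; simp only [Pi.add_apply]; ring
  map_smul' c f := by ext z; simp only [Pi.smul_apply, smul_eq_mul, RingHom.id_apply]; ring

theorem shiftOp_cc (h : ℝ) (m n : ℕ) : shiftOp h (cc m n) = (2 * cos (m * h)) • cc m n := by
  ext z
  show cos (m * (z.1 + h)) * cos (n * z.2) + cos (m * (z.1 - h)) * cos (n * z.2)
    = (2 * cos (m * h)) * (cos (m * z.1) * cos (n * z.2))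
  rw [mul_add, mul_sub, cos_add, cos_sub]
  ring

theorem cc_linearIndependent (lam : ℝ) :
    LinearIndependent ℝ (fun x : {mn : ℕ × ℕ // (mn.1 : ℝ) ^ 2 + (mn.2 : ℝ) ^ 2 = lam} =>
      cc x.1.1 x.1.2) := by
  by_cases hne : Nonempty {mn : ℕ × ℕ // (mn.1 : ℝ) ^ 2 + (mn.2 : ℝ) ^ 2 = lam}
  · have hlam : 0 ≤ lam := by
      obtain ⟨x⟩ := hne
      rw [← x.2]; positivity
    have hh : 0 < 1 / (lam + 1) := by positivity
    apply Module.End.eigenvectors_linearIndependent' (shiftOp (1 / (lam + 1)))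
      (fun x => 2 * cos (x.1.1 * (1 / (lam + 1))))
    · rintro ⟨⟨m, n⟩, h1⟩ ⟨⟨m', n'⟩, h2⟩ h
      simp only at h h1 h2
      have hb : ∀ m n : ℕ, (m : ℝ) ^ 2 + (n : ℝ) ^ 2 = lam → (m : ℝ) * (1 / (lam + 1)) ∈ Icc 0 π := by
        intro m n hmn
        refine ⟨by positivity, ?_⟩
        have h3 : (m : ℝ) ≤ (m : ℝ) ^ 2 := by
          rcases Nat.eq_zero_or_pos m with h | h
          · subst h; simp
          · have : (1 : ℝ) ≤ m := by exact_mod_cast h
            nlinarith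
        have h4 : (m : ℝ) ≤ lam := by nlinarith [sq_nonneg (n : ℝ)]
        have h5 : (m : ℝ) * (1 / (lam + 1)) ≤ 1 := by
          rw [mul_one_div, div_le_one (by positivity)]; linarith
        linarith [pi_gt_three]
      have h3 := injOn_cos (hb m n h1) (hb m' n' h2) (by linarith)
      have h4 : (m : ℝ) = m' := mul_right_cancel₀ hh.ne' h3
      have h5 : m = m' := by exact_mod_cast h4
      subst h5
      have h6 : (n : ℝ) ^ 2 = (n' : ℝ) ^ 2 := by linarith
      have h7 : (n : ℝ) = n' := by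
        have := (sq_eq_sq₀ (by positivity) (by positivity)).1 h6
        exact this
      have h8 : n = n' := by exact_mod_cast h7
      subst h8
      rfl
    · rintro ⟨⟨m, n⟩, _⟩
      exact ⟨Module.End.mem_eigenspace_iff.2 (shiftOp_cc _ m n), cc_ne_zero m n⟩
  · rw [not_nonempty_iff] at hne
    exact linearIndependent_empty_type

theorem pairs_finite (lam : ℝ) :
    Finite {mn : ℕ × ℕ // (mn.1 : ℝ) ^ 2 + (mn.2 : ℝ) ^ 2 = lam} := by
  obtain ⟨N, hN⟩ := exists_nat_ge lam
  have hle : ∀ m n : ℕ, (m : ℝ) ^ 2 + (n : ℝ) ^ 2 = lam → m ≤ N := by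
    intro m n h
    have h3 : (m : ℝ) ≤ (m : ℝ) ^ 2 := by
      rcases Nat.eq_zero_or_pos m with h | h
      · subst h; simp
      · have : (1 : ℝ) ≤ m := by exact_mod_cast h
        nlinarith
    have : (m : ℝ) ≤ N := by nlinarith [sq_nonneg (n : ℝ)]
    exact_mod_cast this
  have hsub : {mn : ℕ × ℕ | (mn.1 : ℝ) ^ 2 + (mn.2 : ℝ) ^ 2 = lam} ⊆
      (Iic N) ×ˢ (Iic N) := by
    rintro ⟨m, n⟩ h
    exact ⟨hle m n h, hle n m (by rw [add_comm]; exact h)⟩
  exact (((finite_Iic N).prod (finite_Iic N)).subset hsub).to_subtype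

theorem eigenspace_eq (lam : ℝ) : eigenspace lam = Submodule.span ℝ
    (range (fun x : {mn : ℕ × ℕ // (mn.1 : ℝ) ^ 2 + (mn.2 : ℝ) ^ 2 = lam} =>
      cc x.1.1 x.1.2)) := by
  unfold eigenspace
  congr 1
  ext f
  constructor
  · rintro ⟨m, n, h, rfl⟩
    exact ⟨⟨(m, n), h⟩, rfl⟩
  · rintro ⟨⟨⟨m, n⟩, h⟩, rfl⟩
    exact ⟨m, n, h, rfl⟩

theorem card_pairs {lam : ℝ} (h : Module.finrank ℝ (eigenspace lam) = 2) :
    Nat.card {mn : ℕ × ℕ // (mn.1 : ℝ) ^ 2 + (mn.2 : ℝ) ^ 2 = lam} = 2 := by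
  have := pairs_finite lam
  have := Fintype.ofFinite {mn : ℕ × ℕ // (mn.1 : ℝ) ^ 2 + (mn.2 : ℝ) ^ 2 = lam}
  rw [eigenspace_eq, finrank_span_eq_card (cc_linearIndependent lam)] at h
  rw [Nat.card_eq_fintype_card]; exact h

theorem exists_pair {lam : ℝ} (h : Module.finrank ℝ (eigenspace lam) = 2) :
    ∃ p q : ℕ, q < p ∧ ∀ m n : ℕ, (m : ℝ) ^ 2 + (n : ℝ) ^ 2 = lam ↔
      (m = p ∧ n = q) ∨ (m = q ∧ n = p) := by
  have hcard := card_pairs h
  set P : Set (ℕ × ℕ) := {mn | (mn.1 : ℝ) ^ 2 + (mn.2 : ℝ) ^ 2 = lam} with hP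
  have hcard' : P.ncard = 2 := hcard
  obtain ⟨A, B, hAB, hPAB⟩ := Set.ncard_eq_two.1 hcard'
  have hmem : ∀ m n : ℕ, (m : ℝ) ^ 2 + (n : ℝ) ^ 2 = lam ↔ ((m, n) = A ∨ (m, n) = B) := by
    intro m n
    have : (m, n) ∈ P ↔ (m, n) ∈ ({A, B} : Set (ℕ × ℕ)) := by rw [hPAB]
    simpa [hP] using this
  obtain ⟨m, n⟩ := A
  obtain ⟨m', n'⟩ := B
  have hA : (m : ℝ) ^ 2 + (n : ℝ) ^ 2 = lam := (hmem m n).2 (Or.inl rfl)
  have hB : (m' : ℝ) ^ 2 + (n' : ℝ) ^ 2 = lam := (hmem m' n').2 (Or.inr rfl)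
  have hA' := (hmem n m).1 (by rw [add_comm]; exact hA)
  have hB' := (hmem n' m').1 (by rw [add_comm]; exact hB)
  simp only [Prod.mk.injEq] at hmem hA' hB' hAB
  have hmn : m ≠ n := by
    rintro rfl
    have hm'n' : m' = n' := by
      rcases hB' with ⟨h1, h2⟩ | ⟨h1, h2⟩
      · omega
      · omega
    subst hm'n'
    apply hAB
    have h1 : (m : ℝ) ^ 2 = (m' : ℝ) ^ 2 := by linarith
    have h2 : (m : ℝ) = m' := (sq_eq_sq₀ (by positivity) (by positivity)).1 h1
    have h3 : m = m' := by exact_mod_cast h2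
    rw [h3]
  have hBA : m' = n ∧ n' = m := by
    rcases hA' with ⟨h1, h2⟩ | ⟨h1, h2⟩
    · omega
    · omega
  obtain ⟨rfl, rfl⟩ := hBA
  rcases lt_or_gt_of_ne hmn with hlt | hlt
  · refine ⟨m', n', hlt, fun a b => ?_⟩
    rw [hmem]; tauto
  · refine ⟨n', m', hlt, fun a b => ?_⟩
    rw [hmem]

theorem eigenspace_pair {lam : ℝ} {p q : ℕ}
    (h : ∀ m n : ℕ, (m : ℝ) ^ 2 + (n : ℝ) ^ 2 = lam ↔ (m = p ∧ n = q) ∨ (m = q ∧ n = p)) :
    eigenspace lam = Submodule.span ℝ {cc p q, cc q p} := by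
  unfold eigenspace
  congr 1
  ext f
  simp only [mem_ofPred_eq, mem_insert_iff, mem_singleton_iff]
  constructor
  · rintro ⟨m, n, h1, rfl⟩
    rcases (h m n).1 h1 with ⟨rfl, rfl⟩ | ⟨rfl, rfl⟩
    · left; rfl
    · right; rfl
  · rintro (rfl | rfl)
    · exact ⟨p, q, (h p q).2 (Or.inl ⟨rfl, rfl⟩), rfl⟩
    · exact ⟨q, p, (h q p).2 (Or.inr ⟨rfl, rfl⟩), rfl⟩

/-- a combination of the two functions vanishes only if both coefficients do -/
theorem U_ne_zero {p q : ℕ} (hpq : q < p) {α β : ℝ} (h : U p q α β = 0) : α = 0 ∧ β = 0 := by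
  have hp : 0 < p := by omega
  have hp' : (0 : ℝ) < p := by exact_mod_cast hp
  have h0 := congrFun h (0, 0)
  have h1 := congrFun h (π / p, 0)
  simp only [U, cc, Pi.zero_apply, mul_zero, cos_zero, mul_one] at h0 h1
  rw [mul_div_cancel₀ _ hp'.ne', cos_pi] at h1
  have hβ : β = -α := by linarith
  have hlt : -1 < cos (q * (π / p)) := by
    have hlt2 : (q : ℝ) * (π / p) < π := by
      rw [mul_div_assoc', div_lt_iff₀ hp']
      have : (q : ℝ) < p := by exact_mod_cast hpq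
      nlinarith [pi_pos]
    have := cos_lt_cos_of_nonneg_of_le_pi (by positivity : 0 ≤ (q : ℝ) * (π / p)) le_rfl hlt2
    rwa [cos_pi] at this
  have h2 : α * (1 + cos (q * (π / p))) = 0 := by
    rw [hβ] at h1; linarith
  rcases mul_eq_zero.1 h2 with h3 | h3
  · exact ⟨h3, by rw [hβ, h3, neg_zero]⟩
  · linarith

end

end Pool.Agent.H82.Nodal
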