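import Mathlib

/-!
Planar part: positivity domains of `cos (θ + ω a) cos b + β cos a cos (η + ω b)` with `ω > 1`,
`|β| < 1` always reach a line `b = k π`.
-/

namespace Pool.Agent.H82.Nodal

open Real Set

noncomputable section

/-- the trigonometric function in scaled coordinates -/
def Psi (ω β θ η : ℝ) (z : ℝ × ℝ) : ℝ :=
  cos (θ + ω * z.1) * cos z.2 + β * cos z.1 * cos (η + ω * z.2)

/-- its positivity set -/
def Pos (ω β θ η : ℝ) : Set (ℝ × ℝ) := {z | 0 < Psi ω β θ η z}

/-- `z` can be joined inside the positivity set to a line `b = k π` -/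
def Exit (ω β θ η : ℝ) (z : ℝ × ℝ) : Prop :=
  ∃ a : ℝ, ∃ k : ℤ, JoinedIn (Pos ω β θ η) z (a, k * π)

theorem horiz {ω β θ η a0 a1 b : ℝ} (h : ∀ a ∈ uIcc a0 a1, 0 < Psi ω β θ η (a, b)) :
    JoinedIn (Pos ω β θ η) (a0, b) (a1, b) := by
  apply JoinedIn.of_segment_subset
  intro z hz
  rw [← Prod.image_mk_segment_left] at hz
  obtain ⟨a, ha, rfl⟩ := hz
  rw [segment_eq_uIcc] at ha
  exact h a ha

theorem vert {ω β θ η a b0 b1 : ℝ} (h : ∀ b ∈ uIcc b0 b1, 0 < Psi ω β θ η (a, b)) :
    JoinedIn (Pos ω β θ η) (a, b0) (a, b1) := by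
  apply JoinedIn.of_segment_subset
  intro z hz
  rw [← Prod.image_mk_segment_right] at hz
  obtain ⟨b, hb, rfl⟩ := hz
  rw [segment_eq_uIcc] at hb
  exact h b hb

theorem Exit.of_joined {ω β θ η : ℝ} {z w : ℝ × ℝ} (h : JoinedIn (Pos ω β θ η) z w)
    (hw : Exit ω β θ η w) : Exit ω β θ η z := by
  obtain ⟨a, k, hk⟩ := hw
  exact ⟨a, k, h.trans hk⟩

theorem Exit.of_vert {ω β θ η a b : ℝ} (hb : 0 ≤ b)
    (h : ∀ t ∈ Icc 0 b, 0 < Psi ω β θ η (a, t)) : Exit ω β θ η (a, b) := by
  refine ⟨a, 0, ?_⟩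
  have := vert (ω := ω) (β := β) (θ := θ) (η := η) (a := a) (b0 := b) (b1 := 0)
    (by rw [uIcc_of_ge hb]; exact h)
  simpa using this

/-! ### symmetries -/

theorem Psi_neg_left (ω β θ η a b : ℝ) :
    Psi ω β (-θ) η (-a, b) = Psi ω β θ η (a, b) := by
  simp only [Psi]
  rw [show -θ + ω * -a = -(θ + ω * a) by ring, cos_neg, cos_neg]

theorem Psi_neg_right (ω β θ η a b : ℝ) :
    Psi ω β θ (-η) (a, -b) = Psi ω β θ η (a, b) := by
  simp only [Psi]
  rw [show -η + ω * -b = -(η + ω * b) by ring, cos_neg, cos_neg]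

theorem Psi_shift_left (ω β θ η a b : ℝ) (n : ℤ) :
    Psi ω (β * (-1) ^ n) (θ + ω * (n * π)) η (a - n * π, b) = Psi ω β θ η (a, b) := by
  simp only [Psi]
  rw [show θ + ω * (n * π) + ω * (a - n * π) = θ + ω * a by ring, cos_sub_int_mul_pi]
  have : ((-1 : ℝ) ^ n) * (-1) ^ n = 1 := by
    rw [← mul_zpow]; norm_num
  linear_combination β * cos a * cos (η + ω * b) * this

theorem Psi_shift_right (ω β θ η a b : ℝ) (n : ℤ) :
    Psi ω β (θ - n * π) (η + ω * (n * π)) (a, b - n * π) = Psi ω β θ η (a, b) := by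
  simp only [Psi]
  rw [show η + ω * (n * π) + ω * (b - n * π) = η + ω * b by ring,
    show θ - n * π + ω * a = θ + ω * a - n * π by ring, cos_sub_int_mul_pi, cos_sub_int_mul_pi]
  have : ((-1 : ℝ) ^ n) * (-1) ^ n = 1 := by
    rw [← mul_zpow]; norm_num
  linear_combination cos (θ + ω * a) * cos b * this

theorem exit_of_map {ω β θ η β' θ' η' : ℝ} (g : ℝ → ℝ) (h : ℝ → ℝ) (hg : Continuous g)
    (hh : Continuous h) (hl : ∀ k : ℤ, ∃ l : ℤ, h (k * π) = l * π)
    (hP : ∀ a b, Psi ω β θ η (g a, h b) = Psi ω β' θ' η' (a, b)) {a b : ℝ}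
    (he : Exit ω β' θ' η' (a, b)) : Exit ω β θ η (g a, h b) := by
  obtain ⟨a1, k, hk⟩ := he
  obtain ⟨l, hl⟩ := hl k
  refine ⟨g a1, l, ?_⟩
  have := hk.map (f := Prod.map g h) (hg.prodMap hh)
  rw [← hl]
  refine JoinedIn.mono this ?_
  rintro _ ⟨⟨x, y⟩, hxy, rfl⟩
  simp only [Pos, mem_ofPred_eq, Prod.map_apply] at *
  rw [hP]; exact hxy

theorem exit_neg_left {ω β θ η a b : ℝ} (he : Exit ω β (-θ) η (-a, b)) :
    Exit ω β θ η (a, b) := by
  have := exit_of_map (ω := ω) (β := β) (θ := θ) (η := η) (β' := β) (θ' := -θ) (η' := η)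
    (fun x => -x) (fun x => x) continuous_neg continuous_id (fun k => ⟨k, rfl⟩)
    (fun a b => by rw [← Psi_neg_left]; simp) he
  simpa using this

theorem exit_neg_right {ω β θ η a b : ℝ} (he : Exit ω β θ (-η) (a, -b)) :
    Exit ω β θ η (a, b) := by
  have := exit_of_map (ω := ω) (β := β) (θ := θ) (η := η) (β' := β) (θ' := θ) (η' := -η)
    (fun x => x) (fun x => -x) continuous_id continuous_neg
    (fun k => ⟨-k, by push_cast; ring⟩)
    (fun a b => by rw [← Psi_neg_right]; simp) he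
  simpa using this

theorem exit_shift_left {ω β θ η a b : ℝ} (n : ℤ)
    (he : Exit ω (β * (-1) ^ n) (θ + ω * (n * π)) η (a - n * π, b)) :
    Exit ω β θ η (a, b) := by
  have := exit_of_map (ω := ω) (β := β) (θ := θ) (η := η) (β' := β * (-1) ^ n)
    (θ' := θ + ω * (n * π)) (η' := η)
    (fun x => x + n * π) (fun x => x) (by fun_prop) continuous_id (fun k => ⟨k, rfl⟩)
    (fun a b => by rw [← Psi_shift_left ω β θ η _ _ n]; simp) he
  simpa using this

theorem exit_shift_right {ω β θ η a b : ℝ} (n : ℤ)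
    (he : Exit ω β (θ - n * π) (η + ω * (n * π)) (a, b - n * π)) :
    Exit ω β θ η (a, b) := by
  have := exit_of_map (ω := ω) (β := β) (θ := θ) (η := η) (β' := β)
    (θ' := θ - n * π) (η' := η + ω * (n * π))
    (fun x => x) (fun x => x + n * π) continuous_id (by fun_prop)
    (fun k => ⟨k + n, by push_cast; ring⟩)
    (fun a b => by rw [← Psi_shift_right ω β θ η _ _ n]; simp) he
  simpa using this

/-- reflection `b ↦ π - b` -/
theorem exit_refl {ω β θ η a b : ℝ}
    (he : Exit ω β (θ + π) (-η - ω * π) (a, π - b)) : Exit ω β θ η (a, b) := by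
  apply exit_neg_right
  apply exit_shift_right (-1)
  have h1 : θ - ((-1 : ℤ) : ℝ) * π = θ + π := by push_cast; ring
  have h2 : -η + ω * (((-1 : ℤ) : ℝ) * π) = -η - ω * π := by push_cast; ring
  have h3 : -b - ((-1 : ℤ) : ℝ) * π = π - b := by push_cast; ring
  rw [h1, h2, h3]
  exact he

theorem Psi_refl (ω β θ η a b : ℝ) :
    Psi ω β (θ + π) (-η - ω * π) (a, π - b) = Psi ω β θ η (a, b) := by
  simp only [Psi]
  rw [show θ + π + ω * a = θ + ω * a + π by ring,
    show -η - ω * π + ω * (π - b) = -(η + ω * b) by ring, cos_neg, cos_add_pi, cos_pi_sub]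
  ring

/-! ### auxiliary one-variable functions -/

def K (ω τ : ℝ) : ℝ := ω * sin τ * cos (ω * τ) - sin (ω * τ) * cos τ

theorem K_neg {ω τ : ℝ} (hω : 1 < ω) (h0 : 0 < τ) (h1 : ω * τ ≤ π) : K ω τ < 0 := by
  have hanti : StrictAntiOn (K ω) (Icc 0 τ) := by
    apply strictAntiOn_of_deriv_neg (convex_Icc _ _)
    · unfold K; fun_prop
    · intro x hx
      rw [interior_Icc] at hx
      have hd : HasDerivAt (K ω) (-(ω ^ 2 - 1) * sin x * sin (ω * x)) x := by
        have e1 : HasDerivAt (fun x => ω * x) ω x := by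
          simpa using (hasDerivAt_id x).const_mul ω
        have e2 := ((hasDerivAt_sin x).const_mul ω).mul e1.cos
        have e3 := e1.sin.mul (hasDerivAt_cos x)
        refine (e2.sub e3).congr_deriv ?_
        ring
      rw [hd.deriv]
      have hx2 : ω * x < π := by nlinarith [hx.1, hx.2]
      have s1 : 0 < sin x := sin_pos_of_pos_of_lt_pi hx.1 (by nlinarith [hx.1, hx.2])
      have s2 : 0 < sin (ω * x) := sin_pos_of_pos_of_lt_pi (by nlinarith [hx.1]) hx2
      have := mul_pos (mul_pos (by nlinarith : 0 < ω ^ 2 - 1) s1) s2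
      linarith
  have := hanti (left_mem_Icc.2 h0.le) (right_mem_Icc.2 h0.le) h0
  simpa [K] using this

/-- the sign of the derivative of `cos (θ + ω a) / cos a` -/
def F1 (ω θ a : ℝ) : ℝ := -ω * sin (θ + ω * a) * cos a + cos (θ + ω * a) * sin a

theorem F1_neg (ω θ a : ℝ) : F1 ω (-θ) (-a) = - F1 ω θ a := by
  simp only [F1]
  rw [show -θ + ω * -a = -(θ + ω * a) by ring, sin_neg, cos_neg, cos_neg, sin_neg]
  ring

theorem hasDerivAt_lin (ω θ a : ℝ) : HasDerivAt (fun x => θ + ω * x) ω a := by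
  simpa using ((hasDerivAt_id a).const_mul ω).const_add θ

theorem F1_continuous (ω θ : ℝ) : Continuous (F1 ω θ) := by
  unfold F1; fun_prop

theorem F1_deriv (ω θ a : ℝ) :
    HasDerivAt (F1 ω θ) (-(ω ^ 2 - 1) * cos (θ + ω * a) * cos a) a := by
  have e1 := hasDerivAt_lin ω θ a
  have e2 := (e1.sin.const_mul (-ω)).mul (hasDerivAt_cos a)
  have e3 := e1.cos.mul (hasDerivAt_sin a)
  refine (e2.add e3).congr_deriv ?_
  ring

theorem quot_deriv (c ω θ a : ℝ) (ha : cos a ≠ 0) :
    HasDerivAt (fun x => c * cos (θ + ω * x) / cos x) (c * F1 ω θ a / cos a ^ 2) a := by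
  have e1 := hasDerivAt_lin ω θ a
  have e2 := (e1.cos.const_mul c).div (hasDerivAt_cos a) ha
  refine e2.congr_deriv ?_
  unfold F1
  ring

theorem quot_mono {c ω θ a0 a1 : ℝ} (h0 : -(π / 2) < a0) (h1 : a1 < π / 2) (h01 : a0 < a1)
    (h : ∀ a ∈ Ioo a0 a1, 0 < c * F1 ω θ a) :
    c * cos (θ + ω * a0) / cos a0 < c * cos (θ + ω * a1) / cos a1 := by
  have hc : ∀ a ∈ Icc a0 a1, 0 < cos a := fun a ha =>
    cos_pos_of_mem_Ioo ⟨by linarith [ha.1], by linarith [ha.2]⟩
  have hmono : StrictMonoOn (fun x => c * cos (θ + ω * x) / cos x) (Icc a0 a1) := by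
    apply strictMonoOn_of_deriv_pos (convex_Icc _ _)
    · intro x hx
      exact (quot_deriv c ω θ x (hc x hx).ne').continuousAt.continuousWithinAt
    · intro x hx
      rw [interior_Icc] at hx
      have hx' : x ∈ Icc a0 a1 := ⟨hx.1.le, hx.2.le⟩
      rw [(quot_deriv c ω θ x (hc x hx').ne').deriv]
      exact div_pos (h x hx) (pow_pos (hc x hx') 2)
  exact hmono (left_mem_Icc.2 h01.le) (right_mem_Icc.2 h01.le) h01

theorem quot_anti {c ω θ a0 a1 : ℝ} (h0 : -(π / 2) < a0) (h1 : a1 < π / 2) (h01 : a0 < a1)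
    (h : ∀ a ∈ Ioo a0 a1, c * F1 ω θ a < 0) :
    c * cos (θ + ω * a1) / cos a1 < c * cos (θ + ω * a0) / cos a0 := by
  have := quot_mono (c := -c) (ω := ω) (θ := θ) h0 h1 h01
    (fun a ha => by have := h a ha; linarith)
  simp only [neg_mul, neg_div] at this
  linarith

theorem quot_mono_le {c ω θ a0 a1 : ℝ} (h0 : -(π / 2) < a0) (h1 : a1 < π / 2) (h01 : a0 ≤ a1)
    (h : ∀ a ∈ Ioo a0 a1, 0 < c * F1 ω θ a) :
    c * cos (θ + ω * a0) / cos a0 ≤ c * cos (θ + ω * a1) / cos a1 := by
  rcases h01.eq_or_lt with h | h'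
  · rw [h]
  · exact (quot_mono h0 h1 h' h).le

/-- `Psi` in terms of the two quotients -/
theorem Psi_eq {ω β θ η a b : ℝ} (ha : cos a ≠ 0) (hb : cos b ≠ 0) :
    Psi ω β θ η (a, b) =
      cos a * cos b * (1 * cos (θ + ω * a) / cos a + β * cos (η + ω * b) / cos b) := by
  simp only [Psi]
  field_simp

/-- moving right while `F1 > 0` keeps `Psi` positive -/
theorem Psi_pos_right {ω β θ η a0 a1 b : ℝ} (h0 : -(π / 2) < a0) (h1 : a1 < π / 2)
    (h01 : a0 ≤ a1) (hb0 : -(π / 2) < b) (hb1 : b < π / 2)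
    (h : ∀ a ∈ Ioo a0 a1, 0 < F1 ω θ a) (hp : 0 < Psi ω β θ η (a0, b)) :
    0 < Psi ω β θ η (a1, b) := by
  have c0 : 0 < cos a0 := cos_pos_of_mem_Ioo ⟨h0, by linarith⟩
  have c1 : 0 < cos a1 := cos_pos_of_mem_Ioo ⟨by linarith, h1⟩
  have cb : 0 < cos b := cos_pos_of_mem_Ioo ⟨hb0, hb1⟩
  rw [Psi_eq c0.ne' cb.ne'] at hp
  rw [Psi_eq c1.ne' cb.ne']
  have hm := quot_mono_le (c := 1) (ω := ω) (θ := θ) h0 h1 h01
    (fun a ha => by simpa using h a ha)
  have := pos_of_mul_pos_right hp (mul_pos c0 cb).le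
  exact mul_pos (mul_pos c1 cb) (by linarith)

theorem Psi_continuous (ω β θ η : ℝ) : Continuous (Psi ω β θ η) := by
  unfold Psi; fun_prop

/-! ### the boundary function `W` -/

theorem W_pos {ω β η b0 : ℝ} (hω : 1 < ω) (hβ : |β| < 1) (h0 : 0 ≤ b0) (h1 : b0 ≤ π / 2)
    (hW : 0 < ω * cos b0 + β * cos (η + ω * b0)) :
    ∃ c > 0, ∀ b ∈ Icc 0 b0, c ≤ ω * cos b + β * cos (η + ω * b) := by
  obtain ⟨x, hx, hmin⟩ := isCompact_Icc.exists_isMinOn (nonempty_Icc.2 h0)
    (f := fun b => ω * cos b + β * cos (η + ω * b)) (by fun_prop)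
  refine ⟨ω * cos x + β * cos (η + ω * x), ?_, fun b hb => hmin hb⟩
  by_contra hneg
  push Not at hneg
  have hb2 : β ^ 2 < 1 := by
    rw [abs_lt] at hβ; nlinarith
  have hx0 : x ≠ 0 := by
    rintro rfl
    simp only [cos_zero, mul_one, mul_zero, add_zero] at hneg
    have : |β * cos η| ≤ |β| := by
      rw [abs_mul]; exact mul_le_of_le_one_right (abs_nonneg _) (abs_cos_le_one _)
    have := neg_abs_le (β * cos η)
    linarith
  have hxb : x ≠ b0 := by
    rintro rfl
    linarith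
  have hx' : x ∈ Ioo 0 b0 := ⟨lt_of_le_of_ne hx.1 (Ne.symm hx0), lt_of_le_of_ne hx.2 hxb⟩
  have hloc : IsLocalMin (fun b => ω * cos b + β * cos (η + ω * b)) x :=
    hmin.isLocalMin (Icc_mem_nhds hx'.1 hx'.2)
  have hd : HasDerivAt (fun b => ω * cos b + β * cos (η + ω * b))
      (ω * -sin x + β * (-sin (η + ω * x) * ω)) x :=
    ((hasDerivAt_cos x).const_mul ω).add ((hasDerivAt_lin ω η x).cos.const_mul β)
  have hz := hloc.hasDerivAt_eq_zero hd
  have hz' : β * sin (η + ω * x) = - sin x := by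
    have : ω * (β * sin (η + ω * x) + sin x) = 0 := by linarith
    rcases mul_eq_zero.1 this with h | h
    · linarith
    · linarith
  have hcx : 0 ≤ cos x := cos_nonneg_of_mem_Icc ⟨by linarith [hx.1, pi_pos], by linarith [hx.2]⟩
  have h2 : ω * cos x ≤ -(β * cos (η + ω * x)) := by linarith
  have h3 : (ω * cos x) ^ 2 ≤ (β * cos (η + ω * x)) ^ 2 := by
    have : (ω * cos x) ^ 2 ≤ (-(β * cos (η + ω * x))) ^ 2 :=
      pow_le_pow_left₀ (by positivity) h2 2
    simpa using this
  have h4 : cos x ^ 2 ≤ (ω * cos x) ^ 2 := by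
    have : cos x ≤ ω * cos x := by nlinarith
    exact pow_le_pow_left₀ hcx this 2
  have h5 : (β * cos (η + ω * x)) ^ 2 + (β * sin (η + ω * x)) ^ 2 = β ^ 2 := by
    have := sin_sq_add_cos_sq (η + ω * x)
    linear_combination β ^ 2 * this
  rw [hz'] at h5
  have := sin_sq_add_cos_sq x
  nlinarith

theorem sin_mul_lt {ω x : ℝ} (hω : 1 < ω) (h0 : 0 < x) (h1 : ω * x ≤ π) :
    sin (ω * x) < ω * sin x := by
  have hmono : StrictMonoOn (fun t => ω * sin t - sin (ω * t)) (Icc 0 x) := by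
    apply strictMonoOn_of_deriv_pos (convex_Icc _ _)
    · fun_prop
    · intro t ht
      rw [interior_Icc] at ht
      have e1 : HasDerivAt (fun x => ω * x) ω t := by
        simpa using (hasDerivAt_id t).const_mul ω
      have hd : HasDerivAt (fun t => ω * sin t - sin (ω * t))
          (ω * cos t - cos (ω * t) * ω) t :=
        ((hasDerivAt_sin t).const_mul ω).sub e1.sin
      rw [hd.deriv]
      have : cos (ω * t) < cos t :=
        cos_lt_cos_of_nonneg_of_le_pi ht.1.le (by nlinarith [ht.2, ht.1]) (by nlinarith [ht.1])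
      nlinarith
  have := hmono (left_mem_Icc.2 h0.le) (right_mem_Icc.2 h0.le) h0
  simp at this
  linarith

/-- behaviour of `Psi` near the line `a = π / 2` in the degenerate case -/
theorem near_line {ω β θ η b0 c : ℝ} (hω : 1 < ω) (hu : cos (θ + ω * (π / 2)) = 0)
    (hs : sin (θ + ω * (π / 2)) = 1) (hc : 0 < c) (hb0 : b0 ≤ π / 2)
    (hW : ∀ b ∈ Icc 0 b0, c ≤ ω * cos b + β * cos (η + ω * b)) :
    ∃ δ0 > 0, ∀ δ, 0 < δ → δ ≤ δ0 → ∀ b ∈ Icc 0 b0, 0 < Psi ω β θ η (π / 2 - δ, b) := by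
  refine ⟨min 1 (c / ω ^ 3), lt_min one_pos (by positivity), ?_⟩
  intro δ hδ hδ1 b hb
  have hδ2 : δ ≤ 1 := hδ1.trans (min_le_left _ _)
  have hδ3 : δ ≤ c / ω ^ 3 := hδ1.trans (min_le_right _ _)
  have hω3 : 0 < ω ^ 3 := by positivity
  have hδ4 : ω ^ 3 * δ ≤ c := by
    rw [le_div_iff₀ hω3] at hδ3; linarith
  have hcb : 0 ≤ cos b := cos_nonneg_of_mem_Icc ⟨by linarith [hb.1, pi_pos], by linarith [hb.2]⟩
  have hcb1 : cos b ≤ 1 := cos_le_one b
  have e1 : cos (θ + ω * (π / 2 - δ)) = sin (ω * δ) := by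
    rw [show θ + ω * (π / 2 - δ) = θ + ω * (π / 2) - ω * δ by ring, cos_sub, hu, hs]; ring
  have e2 : Psi ω β θ η (π / 2 - δ, b) = sin (ω * δ) * cos b + β * sin δ * cos (η + ω * b) := by
    simp only [Psi]
    rw [e1, cos_pi_div_two_sub]
  rw [e2]
  have h1 : ω * δ - (ω * δ) ^ 3 / 6 < sin (ω * δ) := sin_gt_sub_cube (by positivity)
  have h2 : δ - δ ^ 3 / 6 < sin δ := sin_gt_sub_cube hδ
  have h3 : sin δ ≤ δ := sin_le hδ.le
  have h4 : (ω * δ - (ω * δ) ^ 3 / 6) * cos b ≤ sin (ω * δ) * cos b :=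
    mul_le_mul_of_nonneg_right h1.le hcb
  have h5 : (ω * δ - (ω * δ) ^ 3 / 6) * cos b ≥ ω * sin δ * cos b - (ω * δ) ^ 3 / 6 := by
    have : 0 ≤ (ω * δ) ^ 3 / 6 := by positivity
    have h51 : ω * δ * cos b ≥ ω * sin δ * cos b := by
      apply mul_le_mul_of_nonneg_right _ hcb
      nlinarith
    nlinarith
  have h6 : sin δ * c ≤ sin δ * (ω * cos b + β * cos (η + ω * b)) := by
    apply mul_le_mul_of_nonneg_left (hW b hb)
    nlinarith [pow_pos hδ 3, pow_pos hδ 2]
  have h7 : δ / 2 ≤ sin δ := by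
    have : δ ^ 3 ≤ δ := by nlinarith [pow_pos hδ 2]
    linarith
  have h8 : (ω * δ) ^ 3 / 6 < sin δ * c := by
    have a1 : (ω * δ) ^ 3 = (ω ^ 3 * δ) * δ * δ := by ring
    have a2 : (ω ^ 3 * δ) * δ * δ ≤ c * δ * 1 := by
      apply mul_le_mul _ hδ2 hδ.le (by positivity)
      exact mul_le_mul_of_nonneg_right hδ4 hδ.le
    have a3 : δ / 2 * c ≤ sin δ * c := mul_le_mul_of_nonneg_right h7 hc.le
    have : 0 < c * δ := by positivity
    rw [a1]; nlinarith
  nlinarith

/-! ### the end lemma -/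

theorem endLemma {ω β θ η a0 b0 : ℝ} (hω : 1 < ω) (hβ : |β| < 1) (ha0 : -(π / 2) < a0)
    (ha1 : a0 < π / 2) (hb0 : 0 ≤ b0) (hb1 : b0 < π / 2) (hp : 0 < Psi ω β θ η (a0, b0))
    (hF : ∀ a ∈ Ioo a0 (π / 2), 0 < F1 ω θ a) : Exit ω β θ η (a0, b0) := by
  have hcb : 0 < cos b0 := cos_pos_of_mem_Ioo ⟨by linarith [pi_pos], hb1⟩
  have hc0 : 0 < cos a0 := cos_pos_of_mem_Ioo ⟨ha0, ha1⟩
  have hright : ∀ a ∈ Ico a0 (π / 2), 0 < Psi ω β θ η (a, b0) := fun a ha =>
    Psi_pos_right ha0 ha.2 ha.1 (by linarith [pi_pos]) hb1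
      (fun x hx => hF x ⟨hx.1, hx.2.trans ha.2⟩) hp
  have hmono : ∀ a ∈ Ico a0 (π / 2), cos (θ + ω * a0) * cos a ≤ cos (θ + ω * a) * cos a0 := by
    intro a ha
    have hca : 0 < cos a := cos_pos_of_mem_Ioo ⟨by linarith [ha.1], ha.2⟩
    have := quot_mono_le (c := 1) (ω := ω) (θ := θ) ha0 ha.2 ha.1
      (fun x hx => by simpa using hF x ⟨hx.1, hx.2.trans ha.2⟩)
    rw [div_le_div_iff₀ hc0 hca] at this
    linarith
  have hu0 : 0 ≤ cos (θ + ω * (π / 2)) := by
    by_contra hneg
    push Not at hneg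
    have hcont : ContinuousAt (fun a => cos (θ + ω * a) * cos a0 - cos (θ + ω * a0) * cos a)
        (π / 2) := by fun_prop
    have hval : cos (θ + ω * (π / 2)) * cos a0 - cos (θ + ω * a0) * cos (π / 2) < 0 := by
      rw [cos_pi_div_two]; nlinarith
    have e1 : ∀ᶠ a in nhdsWithin (π / 2) (Iio (π / 2)),
        cos (θ + ω * a) * cos a0 - cos (θ + ω * a0) * cos a < 0 :=
      (hcont.tendsto.mono_left nhdsWithin_le_nhds).eventually (Iio_mem_nhds hval)
    have e2 : ∀ᶠ a in nhdsWithin (π / 2) (Iio (π / 2)), a ∈ Ioo a0 (π / 2) :=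
      Ioo_mem_nhdsLT ha1
    obtain ⟨a, h1, h2⟩ := (e1.and e2).exists
    have := hmono a ⟨h2.1.le, h2.2⟩
    linarith
  rcases hu0.lt_or_eq with hu | hu
  · -- `u > 0`
    have h1 : JoinedIn (Pos ω β θ η) (a0, b0) (π / 2, b0) := by
      apply horiz
      intro a ha
      rw [uIcc_of_le ha1.le] at ha
      rcases ha.2.lt_or_eq with h | h
      · exact hright a ⟨ha.1, h⟩
      · rw [h]; simp only [Psi, cos_pi_div_two]
        have := mul_pos hu hcb
        linarith
    apply Exit.of_joined h1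
    apply Exit.of_vert hb0
    intro t ht
    simp only [Psi, cos_pi_div_two]
    have : 0 < cos t := cos_pos_of_mem_Ioo ⟨by linarith [ht.1, pi_pos], by linarith [ht.2]⟩
    have := mul_pos hu this
    linarith
  · -- `u = 0`
    have hu' : cos (θ + ω * (π / 2)) = 0 := hu.symm
    obtain ⟨d, hd0, hd1, hd2⟩ : ∃ d : ℝ, 0 < d ∧ d < π / 2 - a0 ∧ ω * d ≤ π := by
      refine ⟨min ((π / 2 - a0) / 2) (π / ω), ?_, ?_, ?_⟩
      · exact lt_min (by linarith) (by positivity)
      · exact lt_of_le_of_lt (min_le_left _ _) (by linarith)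
      · have : min ((π / 2 - a0) / 2) (π / ω) ≤ π / ω := min_le_right _ _
        have h := mul_le_mul_of_nonneg_left this (by linarith : 0 ≤ ω)
        rwa [mul_div_cancel₀ _ (by linarith : ω ≠ 0)] at h
    have hcosd : cos (θ + ω * (π / 2 - d)) = sin (θ + ω * (π / 2)) * sin (ω * d) := by
      rw [show θ + ω * (π / 2 - d) = θ + ω * (π / 2) - ω * d by ring, cos_sub, hu']; ring
    have hsind : sin (θ + ω * (π / 2 - d)) = sin (θ + ω * (π / 2)) * cos (ω * d) := by
      rw [show θ + ω * (π / 2 - d) = θ + ω * (π / 2) - ω * d by ring, sin_sub, hu']; ring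
    have hF1 : F1 ω θ (π / 2 - d) = - (sin (θ + ω * (π / 2)) * K ω d) := by
      simp only [F1, K]
      rw [hcosd, hsind, cos_pi_div_two_sub, sin_pi_div_two_sub]; ring
    have hFpos := hF (π / 2 - d) ⟨by linarith, by linarith⟩
    have hK := K_neg hω hd0 hd2
    have hs0 : 0 < sin (θ + ω * (π / 2)) := by
      rw [hF1] at hFpos
      by_contra hn
      push Not at hn
      nlinarith
    have hs : sin (θ + ω * (π / 2)) = 1 := by
      have := sin_sq_add_cos_sq (θ + ω * (π / 2))
      rw [hu'] at this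
      nlinarith
    -- `W b0 > 0`
    have hle : cos (θ + ω * a0) < ω * cos a0 := by
      have h1 := hmono (π / 2 - d) ⟨by linarith, by linarith⟩
      rw [hcosd, hs, cos_pi_div_two_sub] at h1
      have h2 := sin_mul_lt hω hd0 hd2
      have hsd : 0 < sin d := sin_pos_of_pos_of_lt_pi hd0 (by linarith [pi_pos])
      have h3 : sin (ω * d) * cos a0 < ω * sin d * cos a0 := mul_lt_mul_of_pos_right h2 hc0
      have h4 : cos (θ + ω * a0) * sin d < (ω * cos a0) * sin d := by linarith
      exact lt_of_mul_lt_mul_right h4 hsd.le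
    have hW0 : 0 < ω * cos b0 + β * cos (η + ω * b0) := by
      simp only [Psi] at hp
      have : cos (θ + ω * a0) * cos b0 < ω * cos a0 * cos b0 := mul_lt_mul_of_pos_right hle hcb
      have h2 : 0 < cos a0 * (ω * cos b0 + β * cos (η + ω * b0)) := by linarith
      exact pos_of_mul_pos_right h2 hc0.le
    obtain ⟨c, hc, hW⟩ := W_pos hω hβ hb0 hb1.le hW0
    obtain ⟨δ0, hδ0, hnear⟩ := near_line (β := β) (η := η) hω hu' hs hc hb1.le hW
    have hδpos : 0 < min δ0 (π / 2 - a0) := lt_min hδ0 (by linarith)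
    have h1 : JoinedIn (Pos ω β θ η) (a0, b0) (π / 2 - min δ0 (π / 2 - a0), b0) := by
      apply horiz
      have hle2 : a0 ≤ π / 2 - min δ0 (π / 2 - a0) := by
        have := min_le_right δ0 (π / 2 - a0); linarith
      intro a ha
      rw [uIcc_of_le hle2] at ha
      exact hright a ⟨ha.1, by linarith [ha.2]⟩
    exact Exit.of_joined h1 (Exit.of_vert hb0 (hnear _ hδpos (min_le_left _ _)))

/-! ### the middle line -/

theorem mid_pos {ω β θ η a0 : ℝ} (ha0 : -(π / 2) < a0) (ha1 : a0 < π / 2)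
    (hp : 0 < Psi ω β θ η (a0, π / 2)) (hu : 0 < cos (θ + ω * (π / 2))) :
    Exit ω β θ η (a0, π / 2) := by
  have hc0 : 0 < cos a0 := cos_pos_of_mem_Ioo ⟨ha0, ha1⟩
  have hv : 0 < β * cos (η + ω * (π / 2)) := by
    simp only [Psi, cos_pi_div_two, mul_zero, zero_add] at hp
    have : 0 < cos a0 * (β * cos (η + ω * (π / 2))) := by linarith
    exact pos_of_mul_pos_right this hc0.le
  -- choose `δ`
  have e1 : ∀ᶠ b in nhds (π / 2), 0 < β * cos (η + ω * b) :=
    (by fun_prop : ContinuousAt (fun b => β * cos (η + ω * b)) (π / 2)).tendsto.eventually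
      (Ioi_mem_nhds hv)
  obtain ⟨δ, hδ, hδb⟩ := Metric.eventually_nhds_iff.1 e1
  set d := min (δ / 2) (π / 4) with hd
  have hd0 : 0 < d := lt_min (by linarith) (by positivity)
  have hd1 : d < δ := lt_of_le_of_lt (min_le_left _ _) (by linarith)
  have hd2 : d < π / 2 := lt_of_le_of_lt (min_le_right _ _) (by linarith [pi_pos])
  have hsd : 0 < sin d := sin_pos_of_pos_of_lt_pi hd0 (by linarith [pi_pos])
  set u := cos (θ + ω * (π / 2)) with hudef
  have e2 : ∀ᶠ a in nhdsWithin (π / 2) (Iio (π / 2)), u / 2 < cos (θ + ω * a) := by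
    have : ContinuousAt (fun a => cos (θ + ω * a)) (π / 2) := by fun_prop
    exact (this.tendsto.mono_left nhdsWithin_le_nhds).eventually
      (Ioi_mem_nhds (by rw [← hudef]; linarith))
  have e3 : ∀ᶠ a in nhdsWithin (π / 2) (Iio (π / 2)), |β| * cos a < u / 2 * sin d := by
    have : ContinuousAt (fun a => |β| * cos a) (π / 2) := by fun_prop
    refine (this.tendsto.mono_left nhdsWithin_le_nhds).eventually (Iio_mem_nhds ?_)
    rw [cos_pi_div_two, mul_zero]; positivity
  have e4 : ∀ᶠ a in nhdsWithin (π / 2) (Iio (π / 2)), a ∈ Ioo (-(π / 2)) (π / 2) :=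
    Ioo_mem_nhdsLT (by linarith [pi_pos])
  obtain ⟨a1, h2, h3, h4⟩ := (e2.and (e3.and e4)).exists
  have hca1 : 0 < cos a1 := cos_pos_of_mem_Ioo h4
  have j1 : JoinedIn (Pos ω β θ η) (a0, π / 2) (a1, π / 2) := by
    apply horiz
    intro a ha
    have : a ∈ Ioo (-(π / 2)) (π / 2) :=
      (ordConnected_Ioo.uIcc_subset ⟨ha0, ha1⟩ h4) ha
    have hca := cos_pos_of_mem_Ioo this
    simp only [Psi, cos_pi_div_two, mul_zero, zero_add]
    nlinarith [mul_pos hca hv]
  apply Exit.of_joined j1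
  apply Exit.of_vert (by positivity)
  intro t ht
  simp only [Psi]
  have hct : 0 ≤ cos t := cos_nonneg_of_mem_Icc ⟨by linarith [ht.1, pi_pos], ht.2⟩
  rcases le_or_gt (π / 2 - d) t with h | h
  · have hb : 0 < β * cos (η + ω * t) := by
      apply hδb
      rw [dist_eq, abs_lt]
      constructor <;> linarith [ht.2]
    have h5 := mul_pos hca1 hb
    have h6 : 0 ≤ cos (θ + ω * a1) * cos t := mul_nonneg (by linarith) hct
    linarith
  · have hct2 : sin d ≤ cos t := by
      rw [← cos_pi_div_two_sub]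
      exact cos_le_cos_of_nonneg_of_le_pi ht.1 (by linarith [pi_pos]) h.le
    have h5 : u / 2 * sin d ≤ cos (θ + ω * a1) * cos t :=
      mul_le_mul h2.le hct2 hsd.le (by linarith)
    have h6 : -(|β| * cos a1) ≤ β * cos a1 * cos (η + ω * t) := by
      have : |β * cos a1 * cos (η + ω * t)| ≤ |β| * cos a1 := by
        rw [abs_mul, abs_mul, abs_of_pos hca1]
        exact mul_le_of_le_one_right (by positivity) (abs_cos_le_one _)
      linarith [neg_abs_le (β * cos a1 * cos (η + ω * t))]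
    linarith

theorem mid_zero {ω β θ η a0 : ℝ} (hω : 1 < ω) (hβ : |β| < 1) (ha0 : -(π / 2) < a0)
    (ha1 : a0 < π / 2) (hp : 0 < Psi ω β θ η (a0, π / 2)) (hu : cos (θ + ω * (π / 2)) = 0)
    (hs : sin (θ + ω * (π / 2)) = 1) :
    Exit ω β θ η (a0, π / 2) := by
  have hc0 : 0 < cos a0 := cos_pos_of_mem_Ioo ⟨ha0, ha1⟩
  have hv : 0 < β * cos (η + ω * (π / 2)) := by
    simp only [Psi, cos_pi_div_two, mul_zero, zero_add] at hp
    have : 0 < cos a0 * (β * cos (η + ω * (π / 2))) := by linarith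
    exact pos_of_mul_pos_right this hc0.le
  obtain ⟨c, hc, hW⟩ := W_pos (η := η) (b0 := π / 2) hω hβ (by positivity) le_rfl
    (by rw [cos_pi_div_two]; linarith)
  obtain ⟨δ0, hδ0, hnear⟩ := near_line (β := β) (η := η) hω hu hs hc le_rfl hW
  have hδpos : 0 < min δ0 (π / 4) := lt_min hδ0 (by positivity)
  have hδle : min δ0 (π / 4) ≤ π / 4 := min_le_right _ _
  have h1 : JoinedIn (Pos ω β θ η) (a0, π / 2) (π / 2 - min δ0 (π / 4), π / 2) := by
    apply horiz
    intro a ha
    have : a ∈ Ioo (-(π / 2)) (π / 2) :=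
      (ordConnected_Ioo.uIcc_subset ⟨ha0, ha1⟩
        ⟨by linarith [pi_pos], by linarith⟩) ha
    have hca := cos_pos_of_mem_Ioo this
    simp only [Psi, cos_pi_div_two, mul_zero, zero_add]
    nlinarith [mul_pos hca hv]
  exact Exit.of_joined h1 (Exit.of_vert (by positivity) (hnear _ hδpos (min_le_left _ _)))

theorem midLemma {ω β θ η a0 : ℝ} (hω : 1 < ω) (hβ : |β| < 1) (ha0 : -(π / 2) < a0)
    (ha1 : a0 < π / 2) (hp : 0 < Psi ω β θ η (a0, π / 2)) :
    Exit ω β θ η (a0, π / 2) := by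
  have hrefl : π - π / 2 = π / 2 := by ring
  have hp' : 0 < Psi ω β (θ + π) (-η - ω * π) (a0, π / 2) := by
    have := Psi_refl ω β θ η a0 (π / 2)
    rw [hrefl] at this
    rw [this]; exact hp
  have hex : Exit ω β (θ + π) (-η - ω * π) (a0, π / 2) → Exit ω β θ η (a0, π / 2) := by
    intro h
    apply exit_refl
    rw [hrefl]; exact h
  have hcosr : cos (θ + π + ω * (π / 2)) = - cos (θ + ω * (π / 2)) := by
    rw [show θ + π + ω * (π / 2) = θ + ω * (π / 2) + π by ring, cos_add_pi]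
  have hsinr : sin (θ + π + ω * (π / 2)) = - sin (θ + ω * (π / 2)) := by
    rw [show θ + π + ω * (π / 2) = θ + ω * (π / 2) + π by ring, sin_add_pi]
  rcases lt_trichotomy (cos (θ + ω * (π / 2))) 0 with hu | hu | hu
  · exact hex (mid_pos ha0 ha1 hp' (by rw [hcosr]; linarith))
  · have hsq := sin_sq_add_cos_sq (θ + ω * (π / 2))
    rw [hu] at hsq
    have : sin (θ + ω * (π / 2)) = 1 ∨ sin (θ + ω * (π / 2)) = -1 := by
      have h0 : (sin (θ + ω * (π / 2)) - 1) * (sin (θ + ω * (π / 2)) + 1) = 0 := by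
        linear_combination hsq
      rcases mul_eq_zero.1 h0 with h | h
      · left; linarith
      · right; linarith
    rcases this with h | h
    · exact mid_zero hω hβ ha0 ha1 hp hu h
    · exact hex (mid_zero hω hβ ha0 ha1 hp' (by rw [hcosr, hu]; ring) (by rw [hsinr, h]; ring))
  · exact mid_pos ha0 ha1 hp hu

/-! ### expansions at a critical point -/

def nn (ω A τ : ℝ) : ℝ := ω * cos A * cos (ω * τ) - sin A * sin (ω * τ)

def EE (ω A τ : ℝ) : ℝ := K ω τ - (ω ^ 2 - 1) * cos A * sin (ω * τ) * cos (A + τ)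

theorem EE_continuous (ω A : ℝ) : Continuous (EE ω A) := by
  unfold EE K; fun_prop

theorem K_continuous (ω : ℝ) : Continuous (K ω) := by
  unfold K; fun_prop

theorem crit_cos {ω c θ A M τ : ℝ} (hc : c * cos (θ + ω * A) = M * cos A)
    (hs : ω * (c * sin (θ + ω * A)) = M * sin A) :
    ω * (c * cos (θ + ω * (A + τ))) = M * nn ω A τ := by
  rw [show θ + ω * (A + τ) = (θ + ω * A) + ω * τ by ring, cos_add]
  simp only [nn]
  linear_combination ω * cos (ω * τ) * hc - sin (ω * τ) * hs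

theorem crit_F1 {ω c θ A M τ : ℝ} (hc : c * cos (θ + ω * A) = M * cos A)
    (hs : ω * (c * sin (θ + ω * A)) = M * sin A) :
    ω * (c * F1 ω θ (A + τ)) = M * EE ω A τ := by
  simp only [F1, EE, K]
  rw [show θ + ω * (A + τ) = (θ + ω * A) + ω * τ by ring, cos_add (θ + ω * A),
    sin_add (θ + ω * A), cos_add A, sin_add A]
  have h := sin_sq_add_cos_sq A
  linear_combination
    (-ω ^ 2 * sin (ω * τ) * (cos A * cos τ - sin A * sin τ)
      + ω * cos (ω * τ) * (sin A * cos τ + cos A * sin τ)) * hc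
    + (-ω * cos (ω * τ) * (cos A * cos τ - sin A * sin τ)
      - sin (ω * τ) * (sin A * cos τ + cos A * sin τ)) * hs
    + M * (ω * sin τ * cos (ω * τ) - sin (ω * τ) * cos τ) * h

theorem cross_id (ω A B τ : ℝ) :
    nn ω A τ * cos (B + τ) - nn ω B τ * cos (A + τ) = - sin (B - A) * K ω τ := by
  simp only [nn, K]
  rw [cos_add, cos_add, sin_sub]
  ring

theorem nn_neg {ω A τ : ℝ} (hK : K ω τ < 0) (hs : 0 < sin τ) (hsω : sin (ω * τ) ≤ 0)
    (hA : 0 < cos A) (hAτ : 0 ≤ cos (A + τ)) : nn ω A τ < 0 := by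
  have h1 : sin τ * nn ω A τ = cos A * K ω τ + sin (ω * τ) * cos (A + τ) := by
    simp only [nn, K]
    rw [cos_add]; ring
  have h2 : sin (ω * τ) * cos (A + τ) ≤ 0 := mul_nonpos_of_nonpos_of_nonneg hsω hAτ
  have h3 : cos A * K ω τ < 0 := mul_neg_of_pos_of_neg hA hK
  by_contra hn
  push Not at hn
  have : 0 ≤ sin τ * nn ω A τ := mul_nonneg hs.le hn
  linarith

/-- if `EE ≤ 0` on `(0, τ1]` then `ω τ1 < 2 π` and `K < 0` on `(0, τ1]` -/
theorem K_neg_of_EE {ω A τ1 : ℝ} (hω : 1 < ω) (hA : 0 ≤ A) (hA1 : A + τ1 < π / 2)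
    (hA2 : A < π / 2)
    (h : ∀ τ ∈ Ioc 0 τ1, EE ω A τ ≤ 0) :
    ω * τ1 < 2 * π ∧ ∀ τ ∈ Ioc 0 τ1, K ω τ < 0 := by
  have hcA : 0 < cos A := cos_pos_of_mem_Ioo ⟨by linarith [pi_pos], hA2⟩
  have hω2 : 0 < ω ^ 2 - 1 := by nlinarith
  have key : ∀ τ ∈ Ioc 0 τ1, π < ω * τ → ω * τ < 2 * π → K ω τ < 0 := by
    intro τ hτ h1 h2
    have hs : sin (ω * τ) < 0 := by
      have : sin (ω * τ - π) > 0 := sin_pos_of_pos_of_lt_pi (by linarith) (by linarith)
      rw [sin_sub_pi] at this; linarith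
    have hc : 0 < cos (A + τ) :=
      cos_pos_of_mem_Ioo ⟨by linarith [hτ.1, pi_pos], by linarith [hτ.2]⟩
    have hE := h τ hτ
    simp only [EE] at hE
    have := mul_pos (mul_pos (mul_pos hω2 hcA) (neg_pos.2 hs)) hc
    linarith
  have hlt : ω * τ1 < 2 * π := by
    by_contra hge
    push Not at hge
    have hω0 : 0 < ω := by linarith
    have hτ2 : 2 * π / ω ≤ τ1 := by
      rw [div_le_iff₀ hω0]; linarith
    have hτ2pos : 0 < 2 * π / ω := by positivity
    have hτ2e : ω * (2 * π / ω) = 2 * π := mul_div_cancel₀ _ hω0.ne'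
    have hKpos : 0 < K ω (2 * π / ω) := by
      simp only [K]
      rw [hτ2e, cos_two_pi, sin_two_pi]
      have : 0 < sin (2 * π / ω) := sin_pos_of_pos_of_lt_pi hτ2pos (by linarith [pi_pos])
      have := mul_pos hω0 this
      linarith
    have e1 : ∀ᶠ τ in nhdsWithin (2 * π / ω) (Iio (2 * π / ω)), 0 < K ω τ :=
      ((K_continuous ω).continuousAt.tendsto.mono_left nhdsWithin_le_nhds).eventually
        (Ioi_mem_nhds hKpos)
    have hlt1 : π / ω < 2 * π / ω := by
      apply div_lt_div_of_pos_right _ hω0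
      linarith [pi_pos]
    have e2 : ∀ᶠ τ in nhdsWithin (2 * π / ω) (Iio (2 * π / ω)),
        τ ∈ Ioo (π / ω) (2 * π / ω) := Ioo_mem_nhdsLT hlt1
    obtain ⟨τ, h1, h2⟩ := (e1.and e2).exists
    have hp0 : 0 < π / ω := by positivity
    have h3 : π < ω * τ := by
      have := mul_lt_mul_of_pos_left h2.1 hω0
      rwa [mul_div_cancel₀ _ hω0.ne'] at this
    have h4 : ω * τ < 2 * π := by
      have := mul_lt_mul_of_pos_left h2.2 hω0
      rwa [hτ2e] at this
    have := key τ ⟨by linarith [h2.1], by linarith [h2.2]⟩ h3 h4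
    linarith
  refine ⟨hlt, fun τ hτ => ?_⟩
  rcases le_or_gt (ω * τ) π with h1 | h1
  · exact K_neg hω hτ.1 h1
  · exact key τ hτ h1 (by nlinarith [hτ.2])

/-- for small arguments `EE < 0` -/
theorem EE_neg {ω A τ : ℝ} (hω : 1 < ω) (hA : 0 ≤ cos A) (h0 : 0 < τ) (h1 : ω * τ ≤ π)
    (hc : 0 ≤ cos (A + τ)) : EE ω A τ < 0 := by
  have hK := K_neg hω h0 h1
  have hs : 0 ≤ sin (ω * τ) := sin_nonneg_of_nonneg_of_le_pi (by nlinarith) h1
  simp only [EE]
  have := mul_nonneg (mul_nonneg (mul_nonneg (by nlinarith : 0 ≤ ω ^ 2 - 1) hA) hs) hc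
  linarith

/-- greatest point of a closed subset of an interval where a continuous function is `≤ 0` -/
theorem exists_greatest {f : ℝ → ℝ} (hf : Continuous f) {b t0 : ℝ} (ht0 : t0 ∈ Icc 0 b)
    (hft : f t0 ≤ 0) :
    ∃ t ∈ Icc 0 b, f t ≤ 0 ∧ ∀ s ∈ Ioc t b, 0 < f s := by
  have hcomp : IsCompact (Icc 0 b ∩ {t | f t ≤ 0}) :=
    isCompact_Icc.inter_right (isClosed_le hf continuous_const)
  obtain ⟨t, ht, hmax⟩ := hcomp.exists_isGreatest ⟨t0, ht0, hft⟩
  refine ⟨t, ht.1, ht.2, fun s hs => ?_⟩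
  by_contra hn
  push Not at hn
  have := hmax ⟨⟨ht.1.1.trans hs.1.le, hs.2⟩, hn⟩
  linarith [hs.1]

theorem exists_least {f : ℝ → ℝ} (hf : Continuous f) {a b t0 : ℝ} (ht0 : t0 ∈ Icc a b)
    (hft : 0 ≤ f t0) :
    ∃ t ∈ Icc a b, 0 ≤ f t ∧ ∀ s ∈ Ico a t, f s < 0 := by
  have hcomp : IsCompact (Icc a b ∩ {t | 0 ≤ f t}) :=
    isCompact_Icc.inter_right (isClosed_le continuous_const hf)
  obtain ⟨t, ht, hmin⟩ := hcomp.exists_isLeast ⟨t0, ht0, hft⟩
  refine ⟨t, ht.1, ht.2, fun s hs => ?_⟩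
  by_contra hn
  push Not at hn
  have := hmin ⟨⟨hs.1, hs.2.le.trans ht.1.2⟩, hn⟩
  linarith [hs.2]

theorem nonneg_of_right {f : ℝ → ℝ} (hf : Continuous f) {t b : ℝ} (htb : t < b)
    (h : ∀ s ∈ Ioc t b, 0 < f s) : 0 ≤ f t := by
  by_contra hn
  push Not at hn
  have e1 : ∀ᶠ s in nhdsWithin t (Ioi t), f s < 0 :=
    (hf.continuousAt.tendsto.mono_left nhdsWithin_le_nhds).eventually (Iio_mem_nhds hn)
  have e2 : ∀ᶠ s in nhdsWithin t (Ioi t), s ∈ Ioo t b := Ioo_mem_nhdsGT htb
  obtain ⟨s, h1, h2⟩ := (e1.and e2).exists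
  have := h s ⟨h2.1, h2.2.le⟩
  linarith

theorem nonpos_of_left {f : ℝ → ℝ} (hf : Continuous f) {t a : ℝ} (hta : a < t)
    (h : ∀ s ∈ Ico a t, f s < 0) : f t ≤ 0 := by
  by_contra hn
  push Not at hn
  have e1 : ∀ᶠ s in nhdsWithin t (Iio t), 0 < f s :=
    (hf.continuousAt.tendsto.mono_left nhdsWithin_le_nhds).eventually (Ioi_mem_nhds hn)
  have e2 : ∀ᶠ s in nhdsWithin t (Iio t), s ∈ Ioo a t := Ioo_mem_nhdsLT hta
  obtain ⟨s, h1, h2⟩ := (e1.and e2).exists
  have := h s ⟨h2.1.le, h2.2⟩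
  linarith

/-! ### moving right -/

theorem rightLemma {ω β θ η a0 b0 : ℝ} (hω : 1 < ω) (hβ : |β| < 1) (ha0 : -(π / 2) < a0)
    (ha1 : a0 < π / 2) (hb0 : 0 ≤ b0) (hb1 : b0 < π / 2) (hp : 0 < Psi ω β θ η (a0, b0))
    (hF : 0 < F1 ω θ a0 ∨ (F1 ω θ a0 = 0 ∧ cos (θ + ω * a0) < 0)) :
    Exit ω β θ η (a0, b0) ∨ ∃ a', a0 < a' ∧ a' < π / 2 ∧ F1 ω θ a' = 0 ∧
      0 < cos (θ + ω * a') ∧ 0 < Psi ω β θ η (a', b0) ∧
      JoinedIn (Pos ω β θ η) (a0, b0) (a', b0) := by
  have hω2 : 0 < ω ^ 2 - 1 := by nlinarith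
  have hc0 : 0 < cos a0 := cos_pos_of_mem_Ioo ⟨ha0, ha1⟩
  -- `F1 > 0` just to the right of `a0`
  obtain ⟨a2, ha2, ha2', hright⟩ : ∃ a2, a0 < a2 ∧ a2 < π / 2 ∧
      ∀ a ∈ Ioc a0 a2, 0 < F1 ω θ a := by
    rcases hF with h | ⟨h, h'⟩
    · have e1 : ∀ᶠ s in nhds a0, 0 < F1 ω θ s :=
        (F1_continuous ω θ).continuousAt.tendsto.eventually (Ioi_mem_nhds h)
      obtain ⟨ε, hε, hε'⟩ := Metric.eventually_nhds_iff.1 e1
      refine ⟨a0 + min (ε / 2) ((π / 2 - a0) / 2), ?_, ?_, ?_⟩
      · have : 0 < min (ε / 2) ((π / 2 - a0) / 2) := lt_min (by linarith) (by linarith)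
        linarith
      · have := min_le_right (ε / 2) ((π / 2 - a0) / 2)
        linarith
      · intro a ha
        apply hε'
        have := min_le_left (ε / 2) ((π / 2 - a0) / 2)
        rw [dist_eq, abs_lt]
        constructor <;> linarith [ha.1, ha.2]
    · have hcont : ContinuousAt (fun x => -(ω ^ 2 - 1) * cos (θ + ω * x) * cos x) a0 := by
        fun_prop
      have hpos : 0 < -(ω ^ 2 - 1) * cos (θ + ω * a0) * cos a0 := by
        have := mul_pos (mul_pos hω2 (neg_pos.2 h')) hc0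
        linarith
      have e1 := hcont.tendsto.eventually (Ioi_mem_nhds hpos)
      obtain ⟨ε, hε, hε'⟩ := Metric.eventually_nhds_iff.1 e1
      refine ⟨a0 + min (ε / 2) ((π / 2 - a0) / 2), ?_, ?_, ?_⟩
      · have : 0 < min (ε / 2) ((π / 2 - a0) / 2) := lt_min (by linarith) (by linarith)
        linarith
      · have := min_le_right (ε / 2) ((π / 2 - a0) / 2)
        linarith
      · intro a ha
        have hmin := min_le_left (ε / 2) ((π / 2 - a0) / 2)
        have hmono : StrictMonoOn (F1 ω θ) (Icc a0 a) := by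
          apply strictMonoOn_of_deriv_pos (convex_Icc _ _) (F1_continuous ω θ).continuousOn
          intro x hx
          rw [interior_Icc] at hx
          rw [(F1_deriv ω θ x).deriv]
          apply hε'
          rw [dist_eq, abs_lt]
          constructor <;> linarith [hx.1, hx.2, ha.2]
        have := hmono (left_mem_Icc.2 ha.1.le) (right_mem_Icc.2 ha.1.le) ha.1
        rw [h] at this
        exact this
  by_cases hall : ∀ a ∈ Ioo a0 (π / 2), 0 < F1 ω θ a
  · exact Or.inl (endLemma hω hβ ha0 ha1 hb0 hb1 hp hall)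
  · push Not at hall
    obtain ⟨a3, ha3, hF3⟩ := hall
    have h23 : a2 < a3 := by
      by_contra hn
      push Not at hn
      have := hright a3 ⟨ha3.1, hn⟩
      linarith
    obtain ⟨a', ha', hFa', hless⟩ := exists_least (f := fun t => - F1 ω θ t)
      (F1_continuous ω θ).neg (a := a2) (b := a3) (t0 := a3) ⟨h23.le, le_rfl⟩ (by simpa using hF3)
    have hpos2 : 0 < F1 ω θ a2 := hright a2 ⟨ha2, le_rfl⟩
    have h2' : a2 < a' := by
      rcases ha'.1.lt_or_eq with h | h
      · exact h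
      · rw [← h] at hFa'; linarith
    have hbetween : ∀ a ∈ Ioo a0 a', 0 < F1 ω θ a := by
      intro a ha
      rcases le_or_gt a a2 with h | h
      · exact hright a ⟨ha.1, h⟩
      · have := hless a ⟨h.le, ha.2⟩
        linarith
    have ha'2 : a' < π / 2 := lt_of_le_of_lt ha'.2 ha3.2
    have hF0 : F1 ω θ a' = 0 := by
      have h1 := nonpos_of_left (f := fun t => - F1 ω θ t) (F1_continuous ω θ).neg h2' hless
      linarith
    have ha0' : a0 < a' := ha2.trans h2'
    have hca' : 0 < cos a' := cos_pos_of_mem_Ioo ⟨by linarith, ha'2⟩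
    have hcosψ : 0 < cos (θ + ω * a') := by
      by_contra hn
      push Not at hn
      rcases hn.lt_or_eq with h | h
      · -- `F1` is increasing near `a'`
        have hcont : ContinuousAt (fun x => -(ω ^ 2 - 1) * cos (θ + ω * x) * cos x) a' := by
          fun_prop
        have hpos : 0 < -(ω ^ 2 - 1) * cos (θ + ω * a') * cos a' := by
          have := mul_pos (mul_pos hω2 (neg_pos.2 h)) hca'
          linarith
        have e1 := hcont.tendsto.eventually (Ioi_mem_nhds hpos)
        obtain ⟨ε, hε, hε'⟩ := Metric.eventually_nhds_iff.1 e1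
        set a := a' - min (ε / 2) ((a' - a0) / 2) with hadef
        have hm1 := min_le_left (ε / 2) ((a' - a0) / 2)
        have hm2 := min_le_right (ε / 2) ((a' - a0) / 2)
        have hm3 : 0 < min (ε / 2) ((a' - a0) / 2) := lt_min (by linarith) (by linarith)
        have haa' : a < a' := by linarith
        have hmono : StrictMonoOn (F1 ω θ) (Icc a a') := by
          apply strictMonoOn_of_deriv_pos (convex_Icc _ _) (F1_continuous ω θ).continuousOn
          intro x hx
          rw [interior_Icc] at hx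
          rw [(F1_deriv ω θ x).deriv]
          apply hε'
          rw [dist_eq, abs_lt]
          constructor <;> linarith [hx.1, hx.2]
        have h1 := hmono (left_mem_Icc.2 haa'.le) (right_mem_Icc.2 haa'.le) haa'
        have h2 := hbetween a ⟨by linarith, haa'⟩
        linarith
      · simp only [F1, h] at hF0
        have h1 := sin_sq_add_cos_sq (θ + ω * a')
        rw [h] at h1
        have h2 : sin (θ + ω * a') ≠ 0 := by
          intro h0; rw [h0] at h1; norm_num at h1
        have h3 : ω * (sin (θ + ω * a') * cos a') = 0 := by linarith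
        rcases mul_eq_zero.1 h3 with h4 | h4
        · linarith
        · rcases mul_eq_zero.1 h4 with h5 | h5
          · exact h2 h5
          · exact hca'.ne' h5
    refine Or.inr ⟨a', ha0', ha'2, hF0, hcosψ, ?_, ?_⟩
    · exact Psi_pos_right ha0 ha'2 ha0'.le (by linarith [pi_pos]) hb1 hbetween hp
    · apply horiz
      intro a ha
      rw [uIcc_of_le ha0'.le] at ha
      exact Psi_pos_right ha0 (lt_of_le_of_lt ha.2 ha'2) ha.1 (by linarith [pi_pos]) hb1
        (fun x hx => hbetween x ⟨hx.1, lt_of_lt_of_le hx.2 ha.2⟩) hp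

/-! ### the main lemma -/

/-- data at a local maximum of the first quotient -/
theorem crit_data {ω θ A : ℝ} (hcA : 0 < cos A) (hF : F1 ω θ A = 0)
    (hcos : 0 < cos (θ + ω * A)) (hω : 1 < ω) :
    ∃ m, 1 ≤ m ∧ 1 * cos (θ + ω * A) = m * cos A ∧ ω * (1 * sin (θ + ω * A)) = m * sin A ∧
      m ^ 2 * (ω ^ 2 * cos A ^ 2 + sin A ^ 2) = ω ^ 2 := by
  have h1 : 1 * cos (θ + ω * A) = (cos (θ + ω * A) / cos A) * cos A := by
    field_simp
  have h2 : ω * (1 * sin (θ + ω * A)) = (cos (θ + ω * A) / cos A) * sin A := by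
    simp only [F1] at hF
    field_simp
    linarith
  have h3 : (cos (θ + ω * A) / cos A) ^ 2 * (ω ^ 2 * cos A ^ 2 + sin A ^ 2) = ω ^ 2 := by
    have hs := sin_sq_add_cos_sq (θ + ω * A)
    generalize (cos (θ + ω * A) / cos A) = m at h1 h2
    have e1 : m ^ 2 * (ω ^ 2 * cos A ^ 2 + sin A ^ 2)
        = ω ^ 2 * (m * cos A) ^ 2 + (m * sin A) ^ 2 := by ring
    rw [e1, ← h1, ← h2]
    linear_combination ω ^ 2 * hs
  have hm0 : 0 < cos (θ + ω * A) / cos A := div_pos hcos hcA
  refine ⟨cos (θ + ω * A) / cos A, ?_, h1, h2, h3⟩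
  by_contra hn
  push Not at hn
  generalize (cos (θ + ω * A) / cos A) = m at *
  have hsq := sin_sq_add_cos_sq A
  have h4 : ω ^ 2 * cos A ^ 2 + sin A ^ 2 ≤ ω ^ 2 := by
    have e1 : cos A ^ 2 = 1 - sin A ^ 2 := by linarith
    have e2 : 0 ≤ (ω ^ 2 - 1) * sin A ^ 2 := mul_nonneg (by nlinarith) (sq_nonneg _)
    rw [e1]; linarith
  have h5 : m ^ 2 < 1 := by nlinarith
  have h6 : 0 < ω ^ 2 := by positivity
  have h7 : m ^ 2 * (ω ^ 2 * cos A ^ 2 + sin A ^ 2) ≤ m ^ 2 * ω ^ 2 :=
    mul_le_mul_of_nonneg_left h4 (sq_nonneg _)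
  nlinarith

theorem mainA {ω β θ η : ℝ} (hω : 1 < ω) (hβ : |β| < 1) (n : ℕ) : ∀ ax b : ℝ, 0 ≤ ax →
    ax < π / 2 → (π / 2 - ax) * ω < n * π → F1 ω θ ax = 0 → 0 < cos (θ + ω * ax) →
    0 ≤ b → b ≤ π / 2 → 0 < Psi ω β θ η (ax, b) → Exit ω β θ η (ax, b) := by
  induction n with
  | zero =>
    intro ax b h0 h1 h2
    exfalso
    push_cast at h2
    nlinarith
  | succ n ih =>
    intro ax b hax0 hax1 hn hF hcosψ hb0 hb1 hp
    have hπ := pi_pos
    have hω0 : 0 < ω := by linarith
    have hω2 : 0 < ω ^ 2 - 1 := by nlinarith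
    have hcax : 0 < cos ax := cos_pos_of_mem_Ioo ⟨by linarith, hax1⟩
    obtain ⟨m, hm1, hmc, hms, hm2⟩ := crit_data hcax hF hcosψ hω
    by_cases hall : ∀ t ∈ Icc 0 b, 0 < Psi ω β θ η (ax, t)
    · exact Exit.of_vert hb0 hall
    push Not at hall
    obtain ⟨t0, ht0, hPt0⟩ := hall
    have hcontP : Continuous (fun t => Psi ω β θ η (ax, t)) :=
      (Psi_continuous ω β θ η).comp (by fun_prop)
    obtain ⟨bi, hbi, hPbi, hgt⟩ := exists_greatest hcontP ht0 hPt0
    have hbib : bi < b := by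
      rcases hbi.2.lt_or_eq with h | h
      · exact h
      · rw [h] at hPbi; linarith
    have hPbi0 : Psi ω β θ η (ax, bi) = 0 :=
      le_antisymm hPbi (nonneg_of_right hcontP hbib hgt)
    have hcbi : 0 < cos bi := cos_pos_of_mem_Ioo ⟨by linarith [hbi.1], by linarith⟩
    have hm0 : 0 < m := by linarith
    -- `h(bi) = -m`
    have hquot : ∀ t, 0 < cos t →
        Psi ω β θ η (ax, t) = cos ax * cos t * (m + β * cos (η + ω * t) / cos t) := by
      intro t ht
      rw [Psi_eq hcax.ne' ht.ne', hmc, mul_div_cancel_right₀ _ hcax.ne']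
    have hbim : β * cos (η + ω * bi) / cos bi = -m := by
      rw [hquot bi hcbi] at hPbi0
      rcases mul_eq_zero.1 hPbi0 with h | h
      · exact absurd h (mul_pos hcax hcbi).ne'
      · linarith
    -- the point `bd`
    have hcontF : Continuous (fun t => β * F1 ω η t) := (F1_continuous ω η).const_mul β
    have hex : ∃ t ∈ Icc 0 bi, β * F1 ω η t ≤ 0 := by
      by_contra hno
      push Not at hno
      have h1 := quot_mono_le (c := β) (ω := ω) (θ := η) (a0 := 0) (a1 := bi) (by linarith)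
        (by linarith) hbi.1 (fun t ht => hno t ⟨ht.1.le, ht.2.le⟩)
      rw [hbim] at h1
      simp only [mul_zero, add_zero, cos_zero, div_one] at h1
      have h2 : |β * cos η| ≤ |β| := by
        rw [abs_mul]; exact mul_le_of_le_one_right (abs_nonneg _) (abs_cos_le_one _)
      linarith [neg_abs_le (β * cos η)]
    obtain ⟨t1, ht1, hFt1⟩ := hex
    obtain ⟨bd, hbd, hFbd, hFgt⟩ := exists_greatest hcontF ht1 hFt1
    have hcbd : 0 < cos bd := cos_pos_of_mem_Ioo ⟨by linarith [hbd.1], by linarith [hbd.2]⟩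
    have hFbd0 : β * F1 ω η bd = 0 := by
      apply le_antisymm hFbd
      rcases hbd.2.lt_or_eq with h | h
      · exact nonneg_of_right hcontF h hFgt
      · -- `bd = bi`
        by_contra hneg
        push Not at hneg
        have e1 : ∀ᶠ s in nhds bd, β * F1 ω η s < 0 :=
          hcontF.continuousAt.tendsto.eventually (Iio_mem_nhds hneg)
        obtain ⟨ε, hε, hε'⟩ := Metric.eventually_nhds_iff.1 e1
        have hmm1 := min_le_left (ε / 2) ((b - bd) / 2)
        have hmm2 := min_le_right (ε / 2) ((b - bd) / 2)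
        have hmm3 : 0 < min (ε / 2) ((b - bd) / 2) := lt_min (by linarith) (by linarith)
        set s := bd + min (ε / 2) ((b - bd) / 2) with hsdef
        have hs1 : bd < s := by linarith
        have hs2 : s < b := by linarith
        have hcs : 0 < cos s := cos_pos_of_mem_Ioo ⟨by linarith [hbd.1], by linarith⟩
        have hlt := quot_anti (c := β) (ω := ω) (θ := η) (a0 := bd) (a1 := s)
          (by linarith [hbd.1]) (by linarith) hs1 (by
            intro a ha
            apply hε'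
            rw [dist_eq, abs_lt]
            constructor <;> linarith [ha.1, ha.2])
        rw [h, hbim] at hlt
        have h5 := hgt s ⟨by linarith, hs2.le⟩
        rw [hquot s hcs] at h5
        have := pos_of_mul_pos_right h5 (mul_pos hcax hcs).le
        linarith
    -- `H`
    obtain ⟨H, hHdef⟩ : ∃ H, H = -(β * cos (η + ω * bd) / cos bd) := ⟨_, rfl⟩
    have hHm : m ≤ H := by
      have h1 := quot_mono_le (c := β) (ω := ω) (θ := η) (a0 := bd) (a1 := bi)
        (by linarith [hbd.1]) (by linarith) hbd.2 (fun t ht => hFgt t ⟨ht.1, ht.2.le⟩)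
      rw [hbim] at h1
      rw [hHdef]; linarith
    have hH0 : 0 < H := by linarith
    have hHc : β * cos (η + ω * bd) = (-H) * cos bd := by
      rw [hHdef]; field_simp
    have hHs : ω * (β * sin (η + ω * bd)) = (-H) * sin bd := by
      have h1 : cos bd * (ω * (β * sin (η + ω * bd))) = cos bd * ((-H) * sin bd) := by
        simp only [F1] at hFbd0
        linear_combination (-1 : ℝ) * hFbd0 + sin bd * hHc
      exact mul_left_cancel₀ hcbd.ne' h1
    have hH2 : H ^ 2 * (ω ^ 2 * cos bd ^ 2 + sin bd ^ 2) < ω ^ 2 := by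
      have hs := sin_sq_add_cos_sq (η + ω * bd)
      have e1 : H ^ 2 * (ω ^ 2 * cos bd ^ 2 + sin bd ^ 2)
          = ω ^ 2 * ((-H) * cos bd) ^ 2 + ((-H) * sin bd) ^ 2 := by ring
      rw [e1, ← hHc, ← hHs]
      have e2 : ω ^ 2 * (β * cos (η + ω * bd)) ^ 2 + (ω * (β * sin (η + ω * bd))) ^ 2
          = ω ^ 2 * β ^ 2 := by linear_combination ω ^ 2 * β ^ 2 * hs
      rw [e2]
      have h1 : β ^ 2 < 1 := by rw [abs_lt] at hβ; nlinarith only [hβ.1, hβ.2]
      have h2 : 0 < ω ^ 2 := by positivity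
      calc ω ^ 2 * β ^ 2 < ω ^ 2 * 1 := mul_lt_mul_of_pos_left h1 h2
        _ = ω ^ 2 := mul_one _
    -- `ax < bd`
    have haxbd : ax < bd := by
      by_contra hle
      push Not at hle
      have hs1 : sin bd ≤ sin ax :=
        sin_le_sin_of_le_of_le_pi_div_two (by linarith [hbd.1]) hax1.le hle
      have hs0 : 0 ≤ sin bd := sin_nonneg_of_nonneg_of_le_pi hbd.1 (by linarith [hbd.2])
      have hs2 : sin bd ^ 2 ≤ sin ax ^ 2 := pow_le_pow_left₀ hs0 hs1 2
      have h1 := sin_sq_add_cos_sq ax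
      have h2 := sin_sq_add_cos_sq bd
      have h3 : ω ^ 2 * cos ax ^ 2 + sin ax ^ 2 ≤ ω ^ 2 * cos bd ^ 2 + sin bd ^ 2 := by
        have e1 : cos ax ^ 2 = 1 - sin ax ^ 2 := by linarith
        have e2 : cos bd ^ 2 = 1 - sin bd ^ 2 := by linarith
        have e3 : 0 ≤ (ω ^ 2 - 1) * (sin ax ^ 2 - sin bd ^ 2) :=
          mul_nonneg hω2.le (by linarith)
        rw [e1, e2]
        linarith
      have h4 : m ^ 2 ≤ H ^ 2 := pow_le_pow_left₀ hm0.le hHm 2
      have h5 : m ^ 2 * (ω ^ 2 * cos ax ^ 2 + sin ax ^ 2)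
          ≤ H ^ 2 * (ω ^ 2 * cos bd ^ 2 + sin bd ^ 2) :=
        mul_le_mul h4 h3 (by positivity) (by positivity)
      linarith
    have hsinba : 0 < sin (bd - ax) :=
      sin_pos_of_pos_of_lt_pi (by linarith) (by linarith [hbd.2])
    -- `bi - bd < π / ω`
    have hbibd : ω * (bi - bd) < π := by
      by_contra hge
      push Not at hge
      have hle : bd + π / ω ≤ bi := by
        have : π / ω ≤ bi - bd := by
          rw [div_le_iff₀ hω0]; linarith
        linarith
      have hpω : 0 < π / ω := by positivity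
      have hcx : 0 < cos (bd + π / ω) :=
        cos_pos_of_mem_Ioo ⟨by linarith [hbd.1], by linarith⟩
      have h1 := quot_mono_le (c := β) (ω := ω) (θ := η) (a0 := bd + π / ω) (a1 := bi)
        (by linarith [hbd.1]) (by linarith) hle
        (fun t ht => hFgt t ⟨by linarith [ht.1], ht.2.le⟩)
      rw [hbim] at h1
      have h2 := crit_cos (τ := π / ω) hHc hHs
      have h3 : nn ω bd (π / ω) = - (ω * cos bd) := by
        simp only [nn]
        rw [mul_div_cancel₀ _ hω0.ne', cos_pi, sin_pi]; ring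
      rw [h3] at h2
      have h4 : 0 < β * cos (η + ω * (bd + π / ω)) := by
        have : 0 < ω * (β * cos (η + ω * (bd + π / ω))) := by
          rw [h2]; have := mul_pos hH0 (mul_pos hω0 hcbd); linarith
        exact pos_of_mul_pos_right this hω0.le
      have := div_pos h4 hcx
      linarith
    -- key positivity: moving up from `bi`
    have hup : ∀ τ1, (∀ τ ∈ Ioc 0 τ1, K ω τ < 0) → ω * τ1 < 2 * π →
        ∀ τ, bi - bd < τ → τ ≤ τ1 → bd + τ < π / 2 → 0 < Psi ω β θ η (ax, bd + τ) := by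
      intro τ1 hK h2π τ hτ1 hτ2 hτ3
      have hτ0 : 0 < τ := by linarith [hbd.2]
      have hcτ : 0 < cos (bd + τ) := cos_pos_of_mem_Ioo ⟨by linarith [hbd.1], hτ3⟩
      rcases le_or_gt π (ω * τ) with h | h
      · have hsω : sin (ω * τ) ≤ 0 := by
          have : 0 ≤ sin (ω * τ - π) := sin_nonneg_of_nonneg_of_le_pi (by linarith)
            (by nlinarith)
          rw [sin_sub_pi] at this; linarith
        have hnn := nn_neg (A := bd) (hK τ ⟨hτ0, hτ2⟩)
          (sin_pos_of_pos_of_lt_pi hτ0 (by linarith [hbd.1])) hsω hcbd hcτ.le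
        have h2 := crit_cos (τ := τ) hHc hHs
        have h4 : 0 < β * cos (η + ω * (bd + τ)) := by
          have : 0 < ω * (β * cos (η + ω * (bd + τ))) := by
            rw [h2]; have := mul_pos hH0 (neg_pos.2 hnn); linarith
          exact pos_of_mul_pos_right this hω0.le
        rw [hquot _ hcτ]
        have := div_pos h4 hcτ
        positivity
      · have hlt := quot_mono (c := β) (ω := ω) (θ := η) (a0 := bi) (a1 := bd + τ)
          (by linarith [hbi.1]) hτ3 (by linarith) (by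
            intro t ht
            have h3 := crit_F1 (τ := t - bd) hHc hHs
            rw [show bd + (t - bd) = t by ring] at h3
            have h4 : EE ω bd (t - bd) < 0 := by
              apply EE_neg hω hcbd.le (by linarith [ht.1, hbd.2])
              · have : ω * (t - bd) ≤ ω * τ := by
                  apply mul_le_mul_of_nonneg_left _ hω0.le
                  linarith [ht.2]
                linarith
              · rw [show bd + (t - bd) = t by ring]
                exact cos_nonneg_of_mem_Icc ⟨by linarith [ht.1, hbi.1], by linarith [ht.2]⟩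
            have h5 : 0 < ω * (β * F1 ω η t) := by
              rw [h3]; have := mul_pos hH0 (neg_pos.2 h4); linarith
            exact pos_of_mul_pos_right h5 hω0.le)
        rw [hbim] at hlt
        rw [hquot _ hcτ]
        have : 0 < m + β * cos (η + ω * (bd + τ)) / cos (bd + τ) := by linarith
        positivity
    by_cases hD : ∃ τ ∈ Ioo 0 (π / 2 - bd), 0 ≤ EE ω ax τ
    · -- case D
      obtain ⟨τ0, hτ0, hEτ0⟩ := hD
      have hpω : 0 < π / ω := by positivity
      have hsmall : ∀ τ, 0 < τ → ω * τ ≤ π → τ < π / 2 - bd → EE ω ax τ < 0 := by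
        intro τ h1 h2 h3
        apply EE_neg hω hcax.le h1 h2
        exact cos_nonneg_of_mem_Icc ⟨by linarith, by linarith⟩
      have hτ0' : π / ω < τ0 := by
        by_contra hle
        push Not at hle
        have h1 : ω * τ0 ≤ π := by
          have := mul_le_mul_of_nonneg_left hle hω0.le
          rwa [mul_div_cancel₀ _ hω0.ne'] at this
        have := hsmall τ0 hτ0.1 h1 hτ0.2
        linarith
      obtain ⟨τd, hτd, hEτd, hless⟩ := exists_least (EE_continuous ω ax) (a := π / ω) (b := τ0)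
        (t0 := τ0) ⟨hτ0'.le, le_rfl⟩ hEτ0
      have hτdP : τd < π / 2 - bd := lt_of_le_of_lt hτd.2 hτ0.2
      have hτd0 : 0 < τd := lt_of_lt_of_le hpω hτd.1
      have hEneg : ∀ τ ∈ Ioo 0 τd, EE ω ax τ < 0 := by
        intro τ hτ
        rcases le_or_gt (π / ω) τ with h | h
        · exact hless τ ⟨h, hτ.2⟩
        · apply hsmall τ hτ.1 _ (by linarith [hτ.2])
          have := mul_le_mul_of_nonneg_left h.le hω0.le
          rwa [mul_div_cancel₀ _ hω0.ne'] at this
      have hτdgt : π / ω < τd := by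
        rcases hτd.1.lt_or_eq with h | h
        · exact h
        · have := hsmall τd hτd0 (by rw [← h, mul_div_cancel₀ _ hω0.ne']) hτdP
          linarith
      have hE0 : EE ω ax τd = 0 := by
        apply le_antisymm _ hEτd
        exact nonpos_of_left (EE_continuous ω ax) hτdgt hless
      have hEle : ∀ τ ∈ Ioc 0 τd, EE ω ax τ ≤ 0 := by
        intro τ hτ
        rcases hτ.2.lt_or_eq with h | h
        · exact (hEneg τ ⟨hτ.1, h⟩).le
        · rw [h, hE0]
      obtain ⟨h2π, hK⟩ := K_neg_of_EE hω hax0 (by linarith) hax1 hEle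
      have hup' := hup τd hK h2π
      have hωτd : π < ω * τd := by
        have := mul_lt_mul_of_pos_left hτdgt hω0
        rwa [mul_div_cancel₀ _ hω0.ne'] at this
      have hbiτd : bi - bd < τd := by
        by_contra hle
        push Not at hle
        have := mul_le_mul_of_nonneg_left hle hω0.le
        linarith
      -- vertical move from `b` to `bd + τd`
      have j1 : JoinedIn (Pos ω β θ η) (ax, b) (ax, bd + τd) := by
        apply vert
        intro t ht
        have htbi : bi < t := lt_of_lt_of_le (lt_min hbib (by linarith)) ht.1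
        rcases le_or_gt t b with h | h
        · exact hgt t ⟨htbi, h⟩
        · have ht2 : t ≤ bd + τd := by
            rcases le_max_iff.1 ht.2 with h' | h'
            · linarith
            · exact h'
          have := hup' (t - bd) (by linarith) (by linarith) (by linarith)
          rwa [show bd + (t - bd) = t by ring] at this
      -- values at the new point
      have hsωd : sin (ω * τd) ≤ 0 := by
        have : 0 ≤ sin (ω * τd - π) := sin_nonneg_of_nonneg_of_le_pi (by linarith)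
          (by linarith)
        rw [sin_sub_pi] at this; linarith
      have hKd := hK τd ⟨hτd0, le_rfl⟩
      have hsτd : 0 < sin τd := sin_pos_of_pos_of_lt_pi hτd0 (by linarith)
      have hcad : 0 < cos (ax + τd) := cos_pos_of_mem_Ioo ⟨by linarith, by linarith⟩
      have hcbds : 0 < cos (bd + τd) :=
        cos_pos_of_mem_Ioo ⟨by linarith [hbd.1], by linarith⟩
      have hnx := nn_neg (A := ax) hKd hsτd hsωd hcax hcad.le
      have hny := nn_neg (A := bd) hKd hsτd hsωd hcbd hcbds.le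
      have hcx := crit_cos (τ := τd) hmc hms
      have hcy := crit_cos (τ := τd) hHc hHs
      have hcross := cross_id ω ax bd τd
      have hPcorner : 0 < Psi ω β θ η (ax + τd, bd + τd) := by
        have h1 : ω * Psi ω β θ η (ax + τd, bd + τd)
            = m * nn ω ax τd * cos (bd + τd) - H * nn ω bd τd * cos (ax + τd) := by
          simp only [Psi]
          linear_combination cos (bd + τd) * hcx + cos (ax + τd) * hcy
        have h2 : 0 < nn ω ax τd * cos (bd + τd) - nn ω bd τd * cos (ax + τd) := by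
          rw [hcross]
          have := mul_pos hsinba (neg_pos.2 hKd)
          linarith
        have h3 : 0 ≤ (H - m) * (-(nn ω bd τd) * cos (ax + τd)) := by
          apply mul_nonneg (by linarith)
          apply mul_nonneg (by linarith) hcad.le
        have h4 : 0 < m * (nn ω ax τd * cos (bd + τd) - nn ω bd τd * cos (ax + τd)) :=
          mul_pos hm0 h2
        have h5 : 0 < ω * Psi ω β θ η (ax + τd, bd + τd) := by
          rw [h1]; linarith
        exact pos_of_mul_pos_right h5 hω0.le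
      have hFx : ∀ τ, ω * (1 * F1 ω θ (ax + τ)) = m * EE ω ax τ := fun τ => crit_F1 hmc hms
      have j2 : JoinedIn (Pos ω β θ η) (ax, bd + τd) (ax + τd, bd + τd) := by
        apply horiz
        intro a ha
        rw [uIcc_of_le (by linarith)] at ha
        have hca : 0 < cos a := cos_pos_of_mem_Ioo ⟨by linarith [ha.1], by linarith [ha.2]⟩
        rcases ha.2.lt_or_eq with h | h
        · have hlt := quot_anti (c := 1) (ω := ω) (θ := θ) (a0 := a) (a1 := ax + τd)
            (by linarith [ha.1]) (by linarith) h (by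
              intro x hx
              have h3 := hFx (x - ax)
              rw [show ax + (x - ax) = x by ring] at h3
              have h4 := hEneg (x - ax) ⟨by linarith [hx.1, ha.1], by linarith [hx.2]⟩
              have h5 : 0 < ω * -(1 * F1 ω θ x) := by
                have := mul_pos hm0 (neg_pos.2 h4); linarith
              have := pos_of_mul_pos_right h5 hω0.le
              linarith)
          have h6 := hPcorner
          rw [Psi_eq hcad.ne' hcbds.ne'] at h6
          have h7 := pos_of_mul_pos_right h6 (mul_pos hcad hcbds).le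
          rw [Psi_eq hca.ne' hcbds.ne']
          exact mul_pos (mul_pos hca hcbds) (by linarith)
        · rw [h]; exact hPcorner
      have hFd : F1 ω θ (ax + τd) = 0 := by
        have := hFx τd
        rw [hE0, mul_zero] at this
        rcases mul_eq_zero.1 this with h | h
        · linarith
        · linarith
      have hcosd : cos (θ + ω * (ax + τd)) < 0 := by
        have h5 : 0 < ω * -(1 * cos (θ + ω * (ax + τd))) := by
          have := mul_pos hm0 (neg_pos.2 hnx); linarith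
        have := pos_of_mul_pos_right h5 hω0.le
        linarith
      apply Exit.of_joined (j1.trans j2)
      rcases rightLemma (η := η) (b0 := bd + τd) hω hβ (by linarith : -(π / 2) < ax + τd)
        (by linarith) (by linarith [hbd.1]) (by linarith) hPcorner (Or.inr ⟨hFd, hcosd⟩) with
        hE | ⟨a', ha1', ha2', hF', hc', hP', j3⟩
      · exact hE
      · apply Exit.of_joined j3
        apply ih a' (bd + τd) (by linarith) ha2' _ hF' hc' (by linarith [hbd.1]) (by linarith) hP'
        have h1 : (π / 2 - a') * ω < (π / 2 - (ax + τd)) * ω := by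
          apply mul_lt_mul_of_pos_right _ hω0
          linarith
        have h2 : (π / 2 - (ax + τd)) * ω = (π / 2 - ax) * ω - ω * τd := by ring
        push_cast at hn
        linarith
    · -- case M
      push Not at hD
      have hP0 : 0 < π / 2 - bd := by linarith [hbd.2]
      have hEP : EE ω ax (π / 2 - bd) ≤ 0 := by
        apply nonpos_of_left (EE_continuous ω ax) (a := (π / 2 - bd) / 2) (by linarith)
        intro s hs
        exact hD s ⟨by linarith [hs.1], hs.2⟩
      have hEle : ∀ τ ∈ Ioc 0 (π / 2 - bd), EE ω ax τ ≤ 0 := by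
        intro τ hτ
        rcases hτ.2.lt_or_eq with h | h
        · exact (hD τ ⟨hτ.1, h⟩).le
        · rw [h]; exact hEP
      obtain ⟨h2π, hK⟩ := K_neg_of_EE hω hax0 (by linarith) hax1 hEle
      have hup' := hup (π / 2 - bd) hK h2π
      have htop : 0 < Psi ω β θ η (ax, π / 2) := by
        have h2 := crit_cos (τ := π / 2 - bd) hHc hHs
        rw [show bd + (π / 2 - bd) = π / 2 by ring] at h2
        have h3 : nn ω bd (π / 2 - bd) = K ω (π / 2 - bd) := by
          simp only [nn, K]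
          rw [sin_pi_div_two_sub, cos_pi_div_two_sub]; ring
        rw [h3] at h2
        have hKP := hK (π / 2 - bd) ⟨hP0, le_rfl⟩
        have h4 : 0 < β * cos (η + ω * (π / 2)) := by
          have : 0 < ω * (β * cos (η + ω * (π / 2))) := by
            rw [h2]; have := mul_pos hH0 (neg_pos.2 hKP); linarith
          exact pos_of_mul_pos_right this hω0.le
        simp only [Psi, cos_pi_div_two, mul_zero, zero_add]
        have := mul_pos hcax h4
        linarith
      have j1 : JoinedIn (Pos ω β θ η) (ax, b) (ax, π / 2) := by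
        apply vert
        intro t ht
        rw [uIcc_of_le hb1] at ht
        rcases ht.2.lt_or_eq with h | h
        · have := hup' (t - bd) (by linarith [ht.1]) (by linarith) (by linarith)
          rwa [show bd + (t - bd) = t by ring] at this
        · rw [h]; exact htop
      exact Exit.of_joined j1 (midLemma hω hβ (by linarith) hax1 htop)

end

end Pool.Agent.H82.Nodal
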