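import Pool.Agent.H82.NodalPlane

/-!
Planar part, continued: every point of the positivity set of
`cos (θ + ω a) cos b + β cos a cos (η + ω b)` is joined inside the positivity set to a point
with `sin (θ + ω a) = 0` and `b = k π`.
-/

namespace Pool.Agent.H82.Nodal

open Real Set

noncomputable section

theorem exit_inner {ω β θ η a b : ℝ} (hω : 1 < ω) (hβ : |β| < 1) (ha0 : -(π / 2) < a)
    (ha1 : a < π / 2) (hb0 : 0 ≤ b) (hb1 : b < π / 2) (hp : 0 < Psi ω β θ η (a, b)) :
    Exit ω β θ η (a, b) := by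
  have hω0 : 0 < ω := by linarith
  -- start from a critical point with positive value
  have hcrit : ∀ θ' a', -(π / 2) < a' → a' < π / 2 → F1 ω θ' a' = 0 → 0 < cos (θ' + ω * a') →
      0 < Psi ω β θ' η (a', b) → Exit ω β θ' η (a', b) := by
    intro θ' a' h1 h2 hF hc hP
    rcases le_or_gt 0 a' with h | h
    · obtain ⟨n, hn⟩ := exists_nat_gt ((π / 2 - a') * ω / π)
      rw [div_lt_iff₀ pi_pos] at hn
      exact mainA hω hβ n a' b h h2 hn hF hc hb0 hb1.le hP
    · apply exit_neg_left
      obtain ⟨n, hn⟩ := exists_nat_gt ((π / 2 - -a') * ω / π)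
      rw [div_lt_iff₀ pi_pos] at hn
      refine mainA hω hβ n (-a') b (by linarith) (by linarith) hn ?_ ?_ hb0 hb1.le ?_
      · rw [F1_neg, hF, neg_zero]
      · rw [show -θ' + ω * -a' = -(θ' + ω * a') by ring, cos_neg]; exact hc
      · rw [Psi_neg_left]; exact hP
  -- go to the right
  have hgo : ∀ θ' a', -(π / 2) < a' → a' < π / 2 →
      (0 < F1 ω θ' a' ∨ (F1 ω θ' a' = 0 ∧ cos (θ' + ω * a') < 0)) →
      0 < Psi ω β θ' η (a', b) → Exit ω β θ' η (a', b) := by
    intro θ' a' h1 h2 hF hP
    rcases rightLemma hω hβ h1 h2 hb0 hb1 hP hF with hE | ⟨a'', h3, h4, h5, h6, h7, h8⟩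
    · exact hE
    · exact Exit.of_joined h8 (hcrit θ' a'' (by linarith) h4 h5 h6 h7)
  rcases lt_trichotomy (F1 ω θ a) 0 with h | h | h
  · apply exit_neg_left
    apply hgo (-θ) (-a) (by linarith) (by linarith)
    · left; rw [F1_neg]; linarith
    · rw [Psi_neg_left]; exact hp
  · rcases lt_trichotomy (cos (θ + ω * a)) 0 with hc | hc | hc
    · exact hgo θ a ha0 ha1 (Or.inr ⟨h, hc⟩) hp
    · exfalso
      have hca : 0 < cos a := cos_pos_of_mem_Ioo ⟨ha0, ha1⟩
      simp only [F1, hc] at h
      have h1 := sin_sq_add_cos_sq (θ + ω * a)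
      rw [hc] at h1
      have h2 : sin (θ + ω * a) ≠ 0 := by
        intro h0; rw [h0] at h1; norm_num at h1
      have h3 : ω * (sin (θ + ω * a) * cos a) = 0 := by linarith
      rcases mul_eq_zero.1 h3 with h4 | h4
      · linarith
      · rcases mul_eq_zero.1 h4 with h5 | h5
        · exact h2 h5
        · exact hca.ne' h5
    · exact hcrit θ a ha0 ha1 h hc hp
  · exact hgo θ a ha0 ha1 (Or.inl h) hp

theorem exit_quarter {ω β θ η a b : ℝ} (hω : 1 < ω) (hβ : |β| < 1) (ha0 : -(π / 2) ≤ a)
    (ha1 : a ≤ π / 2) (hb0 : 0 ≤ b) (hb1 : b ≤ π / 2) (hp : 0 < Psi ω β θ η (a, b)) :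
    Exit ω β θ η (a, b) := by
  by_cases hca : cos a = 0
  · -- vertical line
    have hcb : cos (θ + ω * a) * cos b > 0 := by
      simp only [Psi, hca] at hp; linarith
    have hcb0 : 0 ≤ cos b := cos_nonneg_of_mem_Icc ⟨by linarith [pi_pos], hb1⟩
    have hcb' : 0 < cos b := by
      rcases hcb0.lt_or_eq with h | h
      · exact h
      · rw [← h] at hcb; linarith
    have hcos : 0 < cos (θ + ω * a) := pos_of_mul_pos_left hcb hcb0
    apply Exit.of_vert hb0
    intro t ht
    simp only [Psi, hca]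
    have : cos b ≤ cos t := cos_le_cos_of_nonneg_of_le_pi ht.1 (by linarith [pi_pos]) ht.2
    have := mul_pos hcos (lt_of_lt_of_le hcb' this)
    linarith
  · have h0 : -(π / 2) < a := by
      rcases ha0.lt_or_eq with h | h
      · exact h
      · exact absurd (by rw [← h, cos_neg, cos_pi_div_two]) hca
    have h1 : a < π / 2 := by
      rcases ha1.lt_or_eq with h | h
      · exact h
      · exact absurd (by rw [h, cos_pi_div_two]) hca
    rcases hb1.lt_or_eq with h | h
    · exact exit_inner hω hβ h0 h1 hb0 h hp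
    · rw [h] at hp ⊢
      exact midLemma hω hβ h0 h1 hp

theorem abs_sub_round_pi (x : ℝ) : |x - round (x / π) * π| ≤ π / 2 := by
  have h := abs_sub_round (x / π)
  have h1 : x - round (x / π) * π = (x / π - round (x / π)) * π := by
    field_simp
  rw [h1, abs_mul, abs_of_pos pi_pos]
  have := mul_le_mul_of_nonneg_right h pi_pos.le
  linarith

theorem exit_all {ω β θ η : ℝ} (hω : 1 < ω) (hβ : |β| < 1) (z : ℝ × ℝ)
    (hp : 0 < Psi ω β θ η z) : Exit ω β θ η z := by
  obtain ⟨a, b⟩ := z
  apply exit_shift_left (round (a / π))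
  apply exit_shift_right (round (b / π))
  have ha := abs_le.1 (abs_sub_round_pi a)
  have hb := abs_le.1 (abs_sub_round_pi b)
  rw [← Psi_shift_left ω β θ η a b (round (a / π)),
    ← Psi_shift_right _ _ _ _ _ b (round (b / π))] at hp
  have hβ' : |β * (-1) ^ (round (a / π))| < 1 := by
    rw [abs_mul, abs_zpow]; simpa using hβ
  generalize a - round (a / π) * π = a' at *
  generalize b - round (b / π) * π = b' at *
  generalize β * (-1) ^ (round (a / π)) = β' at *
  generalize θ + ω * (round (a / π) * π) - round (b / π) * π = θ' at *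
  generalize η + ω * (round (b / π) * π) = η' at *
  rcases le_or_gt 0 b' with h | h
  · exact exit_quarter hω hβ' ha.1 ha.2 h hb.2 hp
  · apply exit_neg_right
    apply exit_quarter hω hβ' ha.1 ha.2 (by linarith) (by linarith)
    rw [Psi_neg_right]; exact hp

/-! ### the one-dimensional lemma -/

theorem lt_right_of_deriv_neg {g g' : ℝ → ℝ} (hd : ∀ a, HasDerivAt g (g' a) a)
    (hc : Continuous g') {z : ℝ} (hneg : g' z < 0) :
    ∃ ε > 0, ∀ s, z < s → s < z + ε → g s < g z := by
  have e1 : ∀ᶠ s in nhds z, g' s < 0 := hc.continuousAt.tendsto.eventually (Iio_mem_nhds hneg)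
  obtain ⟨ε, hε, hε'⟩ := Metric.eventually_nhds_iff.1 e1
  refine ⟨ε, hε, fun s h1 h2 => ?_⟩
  have hanti : StrictAntiOn g (Icc z s) := by
    apply strictAntiOn_of_deriv_neg (convex_Icc _ _)
    · exact fun x _ => (hd x).continuousAt.continuousWithinAt
    · intro x hx
      rw [interior_Icc] at hx
      rw [(hd x).deriv]
      apply hε'
      rw [dist_eq, abs_lt]
      constructor <;> linarith [hx.1, hx.2]
  exact hanti (left_mem_Icc.2 h1.le) (right_mem_Icc.2 h1.le) h1

theorem lt_left_of_deriv_pos {g g' : ℝ → ℝ} (hd : ∀ a, HasDerivAt g (g' a) a)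
    (hc : Continuous g') {z : ℝ} (hpos : 0 < g' z) :
    ∃ ε > 0, ∀ s, z - ε < s → s < z → g s < g z := by
  have e1 : ∀ᶠ s in nhds z, 0 < g' s := hc.continuousAt.tendsto.eventually (Ioi_mem_nhds hpos)
  obtain ⟨ε, hε, hε'⟩ := Metric.eventually_nhds_iff.1 e1
  refine ⟨ε, hε, fun s h1 h2 => ?_⟩
  have hmono : StrictMonoOn g (Icc s z) := by
    apply strictMonoOn_of_deriv_pos (convex_Icc _ _)
    · exact fun x _ => (hd x).continuousAt.continuousWithinAt
    · intro x hx
      rw [interior_Icc] at hx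
      rw [(hd x).deriv]
      apply hε'
      rw [dist_eq, abs_lt]
      constructor <;> linarith [hx.1, hx.2]
  exact hmono (left_mem_Icc.2 h2.le) (right_mem_Icc.2 h2.le) h2

/-- `cos (θ + ω a) + γ cos a` with `|γ| < 1 < ω`: from any positive point one reaches a point with
`sin (θ + ω a) = 0` through positive points -/
theorem oneD {ω γ θ a1 : ℝ} (hω : 1 < ω) (hγ : |γ| < 1)
    (hp : 0 < cos (θ + ω * a1) + γ * cos a1) :
    ∃ a2, sin (θ + ω * a2) = 0 ∧ ∀ a ∈ uIcc a1 a2, 0 < cos (θ + ω * a) + γ * cos a := by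
  have hω0 : 0 < ω := by linarith
  have hγ2 : γ ^ 2 < 1 := by rw [abs_lt] at hγ; nlinarith only [hγ.1, hγ.2]
  have hcont : Continuous (fun a => cos (θ + ω * a) + γ * cos a) := by fun_prop
  have hcont' : Continuous (fun a => -sin (θ + ω * a) * ω + γ * -sin a) := by fun_prop
  have hder : ∀ a, HasDerivAt (fun a => cos (θ + ω * a) + γ * cos a)
      (-sin (θ + ω * a) * ω + γ * -sin a) a := fun a =>
    (hasDerivAt_lin ω θ a).cos.add ((hasDerivAt_cos a).const_mul γ)
  -- at a zero the derivative is dominated by the first term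
  have hdom : ∀ a, cos (θ + ω * a) + γ * cos a = 0 →
      |γ * sin a| < ω * |sin (θ + ω * a)| := by
    intro a ha
    have h1 := sin_sq_add_cos_sq (θ + ω * a)
    have h2 := sin_sq_add_cos_sq a
    have h3 : cos (θ + ω * a) = -(γ * cos a) := by linarith
    have h4 : (γ * sin a) ^ 2 < sin (θ + ω * a) ^ 2 := by
      have e1 : sin (θ + ω * a) ^ 2 = 1 - (γ * cos a) ^ 2 := by
        rw [h3] at h1; linarith
      rw [e1]
      have e2 : (γ * sin a) ^ 2 + (γ * cos a) ^ 2 = γ ^ 2 := by
        linear_combination γ ^ 2 * h2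
      linarith
    have h5 : |γ * sin a| < |sin (θ + ω * a)| := sq_lt_sq.1 h4
    have h6 : |sin (θ + ω * a)| ≤ ω * |sin (θ + ω * a)| :=
      le_mul_of_one_le_left (abs_nonneg _) hω.le
    linarith
  -- the index of the interval
  obtain ⟨k, hk⟩ : ∃ k : ℤ, k = ⌊(θ + ω * a1) / π⌋ := ⟨_, rfl⟩
  have hk1 : k * π ≤ θ + ω * a1 := by
    have := Int.floor_le ((θ + ω * a1) / π)
    rw [← hk, le_div_iff₀ pi_pos] at this
    exact this
  have hk2 : θ + ω * a1 < (k + 1) * π := by
    have := Int.lt_floor_add_one ((θ + ω * a1) / π)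
    rw [← hk, div_lt_iff₀ pi_pos] at this
    exact this
  have hsign : ∀ a, k * π ≤ θ + ω * a → θ + ω * a ≤ (k + 1) * π →
      0 ≤ (-1) ^ k * sin (θ + ω * a) := by
    intro a h1 h2
    have h3 : sin (θ + ω * a - k * π) = (-1) ^ k * sin (θ + ω * a) := sin_sub_int_mul_pi _ k
    rw [← h3]
    exact sin_nonneg_of_nonneg_of_le_pi (by linarith) (by linarith)
  rcases Int.even_or_odd k with hev | hodd
  · -- go left
    have hpow : ((-1 : ℝ)) ^ k = 1 := hev.neg_one_zpow
    refine ⟨(k * π - θ) / ω, ?_, ?_⟩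
    · rw [mul_div_cancel₀ _ hω0.ne']
      rw [show θ + (k * π - θ) = k * π by ring]
      exact sin_int_mul_pi k
    · have hle : (k * π - θ) / ω ≤ a1 := by
        rw [div_le_iff₀ hω0]; linarith
      rw [uIcc_of_ge hle]
      by_contra hno
      push Not at hno
      obtain ⟨a0, ha0, ha0'⟩ := hno
      -- greatest nonpositive point
      have hcomp : IsCompact (Icc ((k * π - θ) / ω) a1 ∩ {t | cos (θ + ω * t) + γ * cos t ≤ 0}) :=
        isCompact_Icc.inter_right (isClosed_le hcont continuous_const)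
      obtain ⟨z, hz, hmax⟩ := hcomp.exists_isGreatest ⟨a0, ha0, ha0'⟩
      have hzlt : z < a1 := by
        rcases hz.1.2.lt_or_eq with h | h
        · exact h
        · have h2 := hz.2; rw [h] at h2; simp only [mem_ofPred_eq] at h2; linarith
      have hgt : ∀ s ∈ Ioc z a1, 0 < cos (θ + ω * s) + γ * cos s := by
        intro s hs
        by_contra hn
        push Not at hn
        have := hmax ⟨⟨hz.1.1.trans hs.1.le, hs.2⟩, hn⟩
        linarith [hs.1]
      have hz0 : cos (θ + ω * z) + γ * cos z = 0 :=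
        le_antisymm hz.2 (nonneg_of_right hcont hzlt hgt)
      have hd := hdom z hz0
      have hzk1 : k * π ≤ θ + ω * z := by
        have := hz.1.1
        rw [div_le_iff₀ hω0] at this; linarith
      have hzk2 : θ + ω * z ≤ (k + 1) * π := by nlinarith
      have hs := hsign z hzk1 hzk2
      rw [hpow, one_mul] at hs
      rw [abs_of_nonneg (a := sin (θ + ω * z)) hs] at hd
      have hneg : -sin (θ + ω * z) * ω + γ * -sin z < 0 := by
        have := neg_abs_le (γ * sin z)
        linarith
      -- negative derivative contradicts positivity on the right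
      obtain ⟨ε, hε, hε'⟩ := lt_right_of_deriv_neg hder hcont' hneg
      have h1 := min_le_left (ε / 2) (a1 - z)
      have h2 := min_le_right (ε / 2) (a1 - z)
      have h3 : 0 < min (ε / 2) (a1 - z) := lt_min (by linarith) (by linarith)
      have h4 := hε' (z + min (ε / 2) (a1 - z)) (by linarith) (by linarith)
      have h5 := hgt (z + min (ε / 2) (a1 - z)) ⟨by linarith, by linarith⟩
      linarith
  · -- go right
    have hpow : ((-1 : ℝ)) ^ k = -1 := hodd.neg_one_zpow
    refine ⟨((k + 1) * π - θ) / ω, ?_, ?_⟩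
    · rw [mul_div_cancel₀ _ hω0.ne']
      rw [show θ + ((k + 1) * π - θ) = ((k + 1 : ℤ) : ℝ) * π by push_cast; ring]
      exact sin_int_mul_pi (k + 1)
    · have hle : a1 ≤ ((k + 1) * π - θ) / ω := by
        rw [le_div_iff₀ hω0]; linarith
      rw [uIcc_of_le hle]
      by_contra hno
      push Not at hno
      obtain ⟨a0, ha0, ha0'⟩ := hno
      obtain ⟨z, hz, hz', hless⟩ := exists_least
        (f := fun t => -(cos (θ + ω * t) + γ * cos t)) hcont.neg
        (a := a1) (b := ((k + 1) * π - θ) / ω) ha0 (by linarith)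
      have hzlt : a1 < z := by
        rcases hz.1.lt_or_eq with h | h
        · exact h
        · rw [← h] at hz'; linarith
      have hz0 : cos (θ + ω * z) + γ * cos z = 0 := by
        have := nonpos_of_left (f := fun t => -(cos (θ + ω * t) + γ * cos t)) hcont.neg hzlt hless
        linarith
      have hd := hdom z hz0
      have hzk2 : θ + ω * z ≤ (k + 1) * π := by
        have := hz.2
        rw [le_div_iff₀ hω0] at this; linarith
      have hzk1 : k * π ≤ θ + ω * z := by nlinarith
      have hs := hsign z hzk1 hzk2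
      rw [hpow] at hs
      rw [abs_of_nonpos (a := sin (θ + ω * z)) (by linarith)] at hd
      have hpos : 0 < -sin (θ + ω * z) * ω + γ * -sin z := by
        have := le_abs_self (γ * sin z)
        linarith
      obtain ⟨ε, hε, hε'⟩ := lt_left_of_deriv_pos hder hcont' hpos
      have h1 := min_le_left (ε / 2) (z - a1)
      have h2 := min_le_right (ε / 2) (z - a1)
      have h3 : 0 < min (ε / 2) (z - a1) := lt_min (by linarith) (by linarith)
      have h4 := hε' (z - min (ε / 2) (z - a1)) (by linarith) (by linarith)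
      have h5 := hless (z - min (ε / 2) (z - a1)) ⟨by linarith, by linarith⟩
      linarith

/-- the planar theorem -/
theorem plane_main {ω β θ η : ℝ} (hω : 1 < ω) (hβ : |β| < 1) (z : ℝ × ℝ)
    (hp : 0 < Psi ω β θ η z) :
    ∃ a : ℝ, ∃ k : ℤ, sin (θ + ω * a) = 0 ∧ JoinedIn (Pos ω β θ η) z (a, k * π) := by
  obtain ⟨a1, k, hk⟩ := exit_all hω hβ z hp
  have hpos : 0 < Psi ω β θ η (a1, k * π) := hk.target_mem
  -- on the line `b = k π`
  have hline : ∀ a, Psi ω β θ η (a, k * π)
      = cos ((θ - k * π) + ω * a) + (β * cos (η + ω * (k * π))) * cos a := by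
    intro a
    simp only [Psi]
    rw [show (θ - k * π) + ω * a = θ + ω * a - k * π by ring, cos_sub_int_mul_pi,
      cos_int_mul_pi]
    ring
  have hγ : |β * cos (η + ω * (k * π))| < 1 := by
    rw [abs_mul]
    exact lt_of_le_of_lt (mul_le_of_le_one_right (abs_nonneg _) (abs_cos_le_one _)) hβ
  rw [hline] at hpos
  obtain ⟨a2, ha2, hpath⟩ := oneD hω hγ hpos
  refine ⟨a2, k, ?_, hk.trans (horiz fun a ha => ?_)⟩
  · rw [show (θ - k * π) + ω * a2 = θ + ω * a2 - k * π by ring, sin_sub_int_mul_pi] at ha2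
    rcases mul_eq_zero.1 ha2 with h | h
    · exact absurd h (zpow_ne_zero _ (by norm_num))
    · exact h
  · rw [hline]; exact hpath a ha

end

end Pool.Agent.H82.Nodal
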