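import Pool.Agent.H82.NodalPlane2
import Pool.Agent.H82.NodalDefs

/-!
Topological part: nodal domains of `α cos px cos qy + β cos qx cos py` with `|β| < |α|`.
-/

namespace Pool.Agent.H82.Nodal

open Real Set

noncomputable section

/-- the two-parameter function -/
def U (p q : ℕ) (α β : ℝ) : ℝ × ℝ → ℝ :=
  fun z => α * cc p q z + β * cc q p z

theorem cc_continuous (p q : ℕ) : Continuous (cc p q) := by
  unfold cc; fun_prop

theorem U_continuous (p q : ℕ) (α β : ℝ) : Continuous (U p q α β) := by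
  unfold U
  exact ((cc_continuous p q).const_mul α |>.add ((cc_continuous q p).const_mul β))

/-! ### reaching a lattice point in the plane -/

theorem plane_U_pos {p q : ℕ} (hq : 0 < q) (hpq : q < p) {α β : ℝ} (hαβ : |β| < |α|) {z : ℝ × ℝ}
    (hz : U p q α β z ≠ 0) :
    ∃ w : ℝ × ℝ, sin (p * w.1) = 0 ∧ sin (q * w.2) = 0 ∧
      JoinedIn {z | U p q α β z ≠ 0} z w := by
  have hα : α ≠ 0 := by
    rintro rfl; simp at hαβ; linarith [abs_nonneg β]
  have hq' : (0 : ℝ) < q := by exact_mod_cast hq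
  have hω : (1 : ℝ) < p / q := by
    rw [one_lt_div hq']; exact_mod_cast hpq
  have hβ : |β / α| < 1 := by
    rw [abs_div, div_lt_one (abs_pos.2 hα)]; exact hαβ
  have hωq : ∀ x : ℝ, (p / q : ℝ) * (q * x) = p * x := fun x => by field_simp
  -- the scaling map
  have hscale : Continuous (fun w : ℝ × ℝ => (w.1 / q, w.2 / q)) := by fun_prop
  have hzs : (((q : ℝ) * z.1) / q, ((q : ℝ) * z.2) / q) = z := by
    ext <;> simp <;> field_simp
  -- formula
  have hU : ∀ x y : ℝ, U p q α β (x / q, y / q) = α * Psi (p / q) (β / α) 0 0 (x, y) := by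
    intro x y
    simp only [U, cc, Psi]
    have e1 : (p : ℝ) * (x / q) = 0 + p / q * x := by field_simp; ring
    have e2 : (q : ℝ) * (y / q) = y := by field_simp
    have e3 : (q : ℝ) * (x / q) = x := by field_simp
    have e4 : (p : ℝ) * (y / q) = 0 + p / q * y := by field_simp; ring
    rw [e1, e2, e3, e4]
    field_simp
  have hPsineg : ∀ x y : ℝ, Psi (p / q) (-(β / α)) π 0 (x, y) = - Psi (p / q) (β / α) 0 0 (x, y) := by
    intro x y
    simp only [Psi]
    rw [show π + (p : ℝ) / q * x = (0 + p / q * x) + π by ring, cos_add_pi]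
    ring
  have hUz : U p q α β z = α * Psi (p / q) (β / α) 0 0 (q * z.1, q * z.2) := by
    rw [← hU]; congr 1; ext <;> simp <;> field_simp
  have hne : Psi (p / q) (β / α) 0 0 (q * z.1, q * z.2) ≠ 0 := by
    intro h; rw [hUz, h, mul_zero] at hz; exact hz rfl
  -- the conclusion from a path in the scaled plane
  have hfin : ∀ β' θ' : ℝ, ∀ a : ℝ, ∀ k : ℤ, sin (0 + (p / q : ℝ) * a) = 0 →
      (∀ x y : ℝ, 0 < Psi (p / q) β' θ' 0 (x, y) → Psi (p / q) (β / α) 0 0 (x, y) ≠ 0) →
      JoinedIn (Pos (p / q) β' θ' 0) (q * z.1, q * z.2) (a, k * π) →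
      ∃ w : ℝ × ℝ, sin (p * w.1) = 0 ∧ sin (q * w.2) = 0 ∧
      JoinedIn {z | U p q α β z ≠ 0} z w := by
    intro β' θ' a k hs hPP hj
    refine ⟨(a / q, k * π / q), ?_, ?_, ?_⟩
    · rw [show (p : ℝ) * (a / q) = 0 + p / q * a by field_simp; ring]
      exact hs
    · rw [show (q : ℝ) * (k * π / q) = k * π by field_simp]
      exact sin_int_mul_pi k
    · have := hj.map hscale
      simp only [] at this
      rw [hzs] at this
      refine JoinedIn.mono this ?_
      rintro _ ⟨⟨x, y⟩, hxy, rfl⟩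
      show U p q α β (x / q, y / q) ≠ 0
      rw [hU]
      exact mul_ne_zero hα (hPP x y hxy)
  rcases lt_or_gt_of_ne hne with h | h
  · obtain ⟨a, k, hs, hj⟩ := plane_main (ω := p / q) (β := -(β / α)) (θ := π) (η := 0) hω
      (by rwa [abs_neg]) (q * z.1, q * z.2) (by rw [hPsineg]; linarith)
    apply hfin (-(β / α)) π a k _ _ hj
    · rw [show π + (p / q : ℝ) * a = (0 + (p / q : ℝ) * a) + π by ring, sin_add_pi] at hs
      linarith
    · intro x y hxy
      rw [hPsineg] at hxy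
      linarith
  · obtain ⟨a, k, hs, hj⟩ := plane_main (ω := p / q) (β := β / α) (θ := 0) (η := 0) hω
      hβ (q * z.1, q * z.2) h
    exact hfin (β / α) 0 a k hs (fun x y hxy => hxy.ne') hj

theorem joined_vert {S : Set (ℝ × ℝ)} {x y0 y1 : ℝ} (h : ∀ y ∈ uIcc y0 y1, (x, y) ∈ S) :
    JoinedIn S (x, y0) (x, y1) := by
  apply JoinedIn.of_segment_subset
  intro z hz
  rw [← Prod.image_mk_segment_right] at hz
  obtain ⟨b, hb, rfl⟩ := hz
  rw [segment_eq_uIcc] at hb
  exact h b hb

theorem joined_horiz {S : Set (ℝ × ℝ)} {x0 x1 y : ℝ} (h : ∀ x ∈ uIcc x0 x1, (x, y) ∈ S) :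
    JoinedIn S (x0, y) (x1, y) := by
  apply JoinedIn.of_segment_subset
  intro z hz
  rw [← Prod.image_mk_segment_left] at hz
  obtain ⟨b, hb, rfl⟩ := hz
  rw [segment_eq_uIcc] at hb
  exact h b hb

theorem plane_U_zero {p : ℕ} (hp : 0 < p) {α β : ℝ} (hαβ : |β| < |α|) {z : ℝ × ℝ}
    (hz : U p 0 α β z ≠ 0) :
    ∃ w : ℝ × ℝ, sin (p * w.1) = 0 ∧ w.2 = 0 ∧
      JoinedIn {z | U p 0 α β z ≠ 0} z w := by
  have hα : α ≠ 0 := by
    rintro rfl; simp at hαβ; linarith [abs_nonneg β]
  have hp' : (0 : ℝ) < p := by exact_mod_cast hp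
  have hβ : |β / α| < 1 := by
    rw [abs_div, div_lt_one (abs_pos.2 hα)]; exact hαβ
  obtain ⟨x, y⟩ := z
  have hU : ∀ x y : ℝ, U p 0 α β (x, y) = α * (cos (p * x) + β / α * cos (p * y)) := by
    intro x y
    simp only [U, cc]
    simp
    field_simp
  -- general argument with a shift `θ'`
  have key : ∀ θ' γ : ℝ, |γ| < 1 → 0 < cos (θ' + p * x) + γ * cos (p * y) →
      sin θ' = 0 →
      (∀ x y : ℝ, 0 < cos (θ' + p * x) + γ * cos (p * y) → U p 0 α β (x, y) ≠ 0) →
      ∃ w : ℝ × ℝ, sin (p * w.1) = 0 ∧ w.2 = 0 ∧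
      JoinedIn {z | U p 0 α β z ≠ 0} (x, y) w := by
    intro θ' γ hγ hpos hθ' hPP
    set k := round ((θ' + p * x) / (2 * π)) with hk
    have hr : |θ' + p * x - k * (2 * π)| ≤ π := by
      have h := abs_sub_round ((θ' + p * x) / (2 * π))
      rw [← hk] at h
      have h1 : θ' + p * x - k * (2 * π) = ((θ' + p * x) / (2 * π) - k) * (2 * π) := by
        field_simp
      rw [h1, abs_mul, abs_of_pos (by positivity : (0 : ℝ) < 2 * π)]
      have := mul_le_mul_of_nonneg_right h (by positivity : (0 : ℝ) ≤ 2 * π)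
      linarith
    have hpx2 : (p : ℝ) * ((k * (2 * π) - θ') / p) = k * (2 * π) - θ' := by field_simp
    refine ⟨((k * (2 * π) - θ') / p, 0), ?_, rfl, ?_⟩
    · show sin (p * ((k * (2 * π) - θ') / p)) = 0
      rw [hpx2, sin_int_mul_two_pi_sub, hθ', neg_zero]
    · have j1 : JoinedIn {z | U p 0 α β z ≠ 0} (x, y) ((k * (2 * π) - θ') / p, y) := by
        apply joined_horiz
        intro t ht
        apply hPP
        have hcos : cos (θ' + p * x) ≤ cos (θ' + p * t) := by
          rw [← cos_sub_int_mul_two_pi (θ' + p * x) k, ← cos_sub_int_mul_two_pi (θ' + p * t) k,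
            ← cos_abs (θ' + p * x - k * (2 * π)), ← cos_abs (θ' + p * t - k * (2 * π))]
          apply cos_le_cos_of_nonneg_of_le_pi (abs_nonneg _) hr
          have e1 : θ' + p * t - k * (2 * π) = p * (t - (k * (2 * π) - θ') / p) := by
            field_simp; ring
          have e2 : θ' + p * x - k * (2 * π) = p * (x - (k * (2 * π) - θ') / p) := by
            field_simp; ring
          rw [e1, e2, abs_mul, abs_mul]
          apply mul_le_mul_of_nonneg_left _ (abs_nonneg _)
          rw [abs_sub_comm t, abs_sub_comm x]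
          exact abs_sub_right_of_mem_uIcc ht
        linarith
      have j2 : JoinedIn {z | U p 0 α β z ≠ 0} ((k * (2 * π) - θ') / p, y)
          ((k * (2 * π) - θ') / p, 0) := by
        apply joined_vert
        intro t _
        apply hPP
        rw [hpx2, show θ' + (k * (2 * π) - θ') = k * (2 * π) by ring, cos_int_mul_two_pi]
        have : |γ * cos (p * t)| < 1 := by
          rw [abs_mul]
          exact lt_of_le_of_lt (mul_le_of_le_one_right (abs_nonneg _) (abs_cos_le_one _)) hγ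
        linarith [neg_abs_le (γ * cos (p * t))]
      exact j1.trans j2
  have hne : cos (p * x) + β / α * cos (p * y) ≠ 0 := by
    intro h; rw [hU, h, mul_zero] at hz; exact hz rfl
  rcases lt_or_gt_of_ne hne with h | h
  · apply key π (-(β / α)) (by rwa [abs_neg])
    · rw [show π + (p : ℝ) * x = p * x + π by ring, cos_add_pi]; linarith
    · exact sin_pi
    · intro x y hxy
      rw [show π + (p : ℝ) * x = p * x + π by ring, cos_add_pi] at hxy
      rw [hU]
      exact mul_ne_zero hα (by linarith)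
  · apply key 0 (β / α) hβ
    · rw [zero_add]; exact h
    · exact sin_zero
    · intro x y hxy
      rw [zero_add] at hxy
      rw [hU]
      exact mul_ne_zero hα (by linarith)

/-! ### folding into the closed square -/

/-- fold the line onto `[0, π]` -/
def fold (x : ℝ) : ℝ := arccos (cos x)

theorem fold_continuous : Continuous fold := continuous_arccos.comp continuous_cos

theorem fold_mem (x : ℝ) : fold x ∈ Icc 0 π := ⟨arccos_nonneg _, arccos_le_pi _⟩

theorem fold_eq {x : ℝ} (hx : x ∈ Icc 0 π) : fold x = x := arccos_cos hx.1 hx.2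

theorem cos_fold (n : ℕ) (x : ℝ) : cos (n * fold x) = cos (n * x) := by
  have h1 : cos (fold x) = cos x := cos_arccos (neg_one_le_cos x) (cos_le_one x)
  have h2 := Polynomial.Chebyshev.T_real_cos (fold x) (n : ℤ)
  have h3 := Polynomial.Chebyshev.T_real_cos x (n : ℤ)
  rw [h1] at h2
  push_cast at h2 h3
  rw [← h2, h3]

def foldP (z : ℝ × ℝ) : ℝ × ℝ := (fold z.1, fold z.2)

theorem foldP_continuous : Continuous foldP :=
  (fold_continuous.comp continuous_fst).prodMk (fold_continuous.comp continuous_snd)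

theorem U_fold (p q : ℕ) (α β : ℝ) (z : ℝ × ℝ) : U p q α β (foldP z) = U p q α β z := by
  simp only [U, cc, foldP, cos_fold]

/-- the closed square -/
def CSquare : Set (ℝ × ℝ) := Icc 0 π ×ˢ Icc 0 π

theorem foldP_mem (z : ℝ × ℝ) : foldP z ∈ CSquare := ⟨fold_mem _, fold_mem _⟩

theorem foldP_eq {z : ℝ × ℝ} (hz : z ∈ Square) : foldP z = z := by
  obtain ⟨x, y⟩ := z
  simp only [Square, mem_prod] at hz
  simp only [foldP]
  rw [fold_eq ⟨hz.1.1.le, hz.1.2.le⟩, fold_eq ⟨hz.2.1.le, hz.2.2.le⟩]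

theorem lattice_of_sin {n : ℕ} {x : ℝ} (hx : x ∈ Icc 0 π) (hs : sin (n * x) = 0)
    (h0 : n = 0 → x = 0) : ∃ i : Fin (n + 1), x = (i : ℕ) * π / n := by
  rcases Nat.eq_zero_or_pos n with h | h
  · subst h
    refine ⟨0, ?_⟩
    rw [h0 rfl]; simp
  · have hn : (0 : ℝ) < n := by exact_mod_cast h
    obtain ⟨k, hk⟩ := sin_eq_zero_iff.1 hs
    have hk0 : 0 ≤ k := by
      by_contra hneg
      push Not at hneg
      have : (k : ℝ) ≤ -1 := by exact_mod_cast Int.le_sub_one_iff.2 hneg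
      have h2 : (k : ℝ) * π < 0 := by nlinarith [pi_pos]
      have h3 : 0 ≤ (n : ℝ) * x := mul_nonneg hn.le hx.1
      linarith
    have hkn : k ≤ n := by
      have : (k : ℝ) * π ≤ n * π := by
        rw [hk]; exact mul_le_mul_of_nonneg_left hx.2 hn.le
      have := le_of_mul_le_mul_right this pi_pos
      exact_mod_cast this
    obtain ⟨m, rfl⟩ := Int.eq_ofNat_of_zero_le hk0
    refine ⟨⟨m, by omega⟩, ?_⟩
    push_cast at hk
    simp only
    field_simp
    linarith

/-- every nodal point of the square is joined in the closed square to a lattice point -/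
theorem reach_lattice {p q : ℕ} (hpq : q < p) {α β : ℝ} (hαβ : |β| < |α|) {z : ℝ × ℝ}
    (hz : z ∈ Square) (hu : U p q α β z ≠ 0) :
    ∃ ij : Fin (p + 1) × Fin (q + 1),
      JoinedIn (CSquare ∩ {z | U p q α β z ≠ 0}) z
        (((ij.1 : ℕ) * π / p, (ij.2 : ℕ) * π / q)) := by
  obtain ⟨w, hw1, hw2, hw3, hj⟩ : ∃ w : ℝ × ℝ, sin (p * w.1) = 0 ∧ sin (q * w.2) = 0 ∧
      (q = 0 → w.2 = 0) ∧ JoinedIn {z | U p q α β z ≠ 0} z w := by
    rcases Nat.eq_zero_or_pos q with h | h
    · subst h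
      obtain ⟨w, h1, h2, h3⟩ := plane_U_zero hpq hαβ hu
      exact ⟨w, h1, by simp, fun _ => h2, h3⟩
    · obtain ⟨w, h1, h2, h3⟩ := plane_U_pos h hpq hαβ hu
      exact ⟨w, h1, h2, fun h0 => absurd h0 h.ne', h3⟩
  have hj2 := hj.map foldP_continuous
  rw [foldP_eq hz] at hj2
  have hs : ∀ n : ℕ, ∀ x : ℝ, sin (n * x) = 0 → sin (n * fold x) = 0 := by
    intro n x h
    have h1 := sin_sq_add_cos_sq (n * x)
    have h2 := sin_sq_add_cos_sq (n * fold x)
    rw [cos_fold] at h2
    rw [h] at h1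
    have : sin (n * fold x) ^ 2 = 0 := by linarith
    exact pow_eq_zero_iff (two_ne_zero) |>.1 this
  obtain ⟨i, hi⟩ := lattice_of_sin (n := p) (fold_mem w.1) (hs p w.1 hw1) (fun h => by omega)
  obtain ⟨j, hjj⟩ := lattice_of_sin (n := q) (fold_mem w.2) (hs q w.2 hw2) (fun h => by
    rw [hw3 h]; exact fold_eq ⟨le_rfl, pi_pos.le⟩)
  refine ⟨(i, j), ?_⟩
  have hw : foldP w = ((i : ℕ) * π / p, (j : ℕ) * π / q) := by
    simp only [foldP]; rw [← hi, ← hjj]
  rw [← hw]
  refine JoinedIn.mono hj2 ?_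
  rintro _ ⟨t, ht, rfl⟩
  refine ⟨foldP_mem t, ?_⟩
  show U p q α β (foldP t) ≠ 0
  rw [U_fold]; exact ht

/-! ### shrinking into the open square -/

theorem shrink {u : ℝ × ℝ → ℝ} (hu : Continuous u) {z z' : ℝ × ℝ} (hz : z ∈ Square)
    (hz' : z' ∈ Square) (h : JoinedIn (CSquare ∩ {z | u z ≠ 0}) z z') :
    JoinedIn (Square ∩ {z | u z ≠ 0}) z z' := by
  obtain ⟨γ, hγ⟩ := h
  set H : ℝ → ℝ × ℝ → ℝ × ℝ := fun s w => ((1 - s) * w.1 + s * (π / 2), (1 - s) * w.2 + s * (π / 2))
    with hH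
  have hHc : Continuous (fun x : ℝ × unitInterval => H x.1 (γ x.2)) := by
    simp only [hH]; fun_prop
  have hev : ∀ᶠ s in nhds (0 : ℝ), ∀ t ∈ (univ : Set unitInterval), u (H s (γ t)) ≠ 0 := by
    apply isCompact_univ.eventually_forall_of_forall_eventually
    intro t _
    have hcont : Continuous (fun x : ℝ × unitInterval => u (H x.1 (γ x.2))) := hu.comp hHc
    apply hcont.continuousAt.eventually_ne
    simp only [hH, sub_zero, one_mul, zero_mul, add_zero]
    exact (hγ t).2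
  obtain ⟨ε, hε, hε'⟩ := Metric.eventually_nhds_iff.1 hev
  obtain ⟨s, hs0, hs1, hs2⟩ : ∃ s : ℝ, 0 < s ∧ s < 1 ∧ s < ε := by
    refine ⟨min (ε / 2) (1 / 2), lt_min (by linarith) (by norm_num), ?_, ?_⟩
    · exact lt_of_le_of_lt (min_le_right _ _) (by norm_num)
    · exact lt_of_le_of_lt (min_le_left _ _) (by linarith)
  have hu0 : ∀ r ∈ Icc 0 s, ∀ t, u (H r (γ t)) ≠ 0 := by
    intro r hr t
    apply hε' _ t (mem_univ _)
    rw [dist_eq, sub_zero, abs_of_nonneg hr.1]
    linarith [hr.2]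
  have hmemS : ∀ w ∈ CSquare, H s w ∈ Square := by
    rintro ⟨x, y⟩ ⟨hx, hy⟩
    simp only [hH, Square, mem_prod, mem_Ioo] at *
    have hx1 := hx.1; have hx2 := hx.2; have hy1 := hy.1; have hy2 := hy.2
    have hπ := pi_pos
    refine ⟨⟨?_, ?_⟩, ⟨?_, ?_⟩⟩ <;> nlinarith
  have hmemS2 : ∀ w ∈ Square, ∀ r ∈ Icc 0 s, H r w ∈ Square := by
    rintro ⟨x, y⟩ ⟨hx, hy⟩ r hr
    simp only [hH, Square, mem_prod, mem_Ioo, mem_Icc] at *
    have hx1 := hx.1; have hx2 := hx.2; have hy1 := hy.1; have hy2 := hy.2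
    have hπ := pi_pos
    have hr1 := hr.1; have hr2 := hr.2
    refine ⟨⟨?_, ?_⟩, ⟨?_, ?_⟩⟩ <;> nlinarith
  have hseg : ∀ t, γ t ∈ Square → JoinedIn (Square ∩ {z | u z ≠ 0}) (γ t) (H s (γ t)) := by
    intro t ht
    have hcont : Continuous (fun r : ℝ => H (s * r) (γ t)) := by
      simp only [hH]; fun_prop
    apply JoinedIn.ofLine hcont.continuousOn
    · simp [hH]
    · simp
    · rintro _ ⟨r, hr, rfl⟩
      have hsr : s * r ∈ Icc 0 s := ⟨mul_nonneg hs0.le hr.1, mul_le_of_le_one_right hs0.le hr.2⟩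
      exact ⟨hmemS2 _ ht _ hsr, hu0 _ hsr t⟩
  have j1 := hseg 0 (by rw [γ.source]; exact hz)
  have j3 := hseg 1 (by rw [γ.target]; exact hz')
  rw [γ.source] at j1
  rw [γ.target] at j3
  have j2 : JoinedIn (Square ∩ {z | u z ≠ 0}) (H s z) (H s z') := by
    have hcs : Continuous (H s) := by simp only [hH]; fun_prop
    have : JoinedIn (CSquare ∩ {z | u (H s z) ≠ 0}) z z' :=
      ⟨γ, fun t => ⟨(hγ t).1, hu0 s ⟨hs0.le, le_rfl⟩ t⟩⟩
    refine JoinedIn.mono (this.map hcs) ?_
    rintro _ ⟨w, hw, rfl⟩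
    exact ⟨hmemS w hw.1, hw.2⟩
  exact (j1.trans j2).trans j3.symm

/-! ### upper bound -/

theorem nodalCount_le {p q : ℕ} (hpq : q < p) {α β : ℝ} (hαβ : |β| < |α|) :
    nodalCount (U p q α β) ≤ ((p + 1) * (q + 1) : ℕ) := by
  set X := {z : ℝ × ℝ // z ∈ Square ∧ U p q α β z ≠ 0} with hX
  have hrep : ∀ c : ConnectedComponents X, ∃ x : X, (x : ConnectedComponents X) = c :=
    fun c => ConnectedComponents.surjective_coe c
  choose rep hrep using hrep
  have hL : ∀ x : X, ∃ ij : Fin (p + 1) × Fin (q + 1),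
      JoinedIn (CSquare ∩ {z | U p q α β z ≠ 0}) x.1
        (((ij.1 : ℕ) * π / p, (ij.2 : ℕ) * π / q)) := fun x =>
    reach_lattice hpq hαβ x.2.1 x.2.2
  choose L hL using hL
  have hinj : Function.Injective (fun c => L (rep c)) := by
    intro c c' h
    simp only at h
    have h1 := hL (rep c)
    have h2 := hL (rep c')
    rw [← h] at h2
    have h3 := shrink (U_continuous p q α β) (rep c).2.1 (rep c').2.1 (h1.trans h2.symm)
    have h4 : Joined (rep c) (rep c') := by
      have := (joinedIn_iff_joined (F := Square ∩ {z | U p q α β z ≠ 0})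
        (x := (rep c).1) (y := (rep c').1) (rep c).2 (rep c').2).1 h3
      exact this
    have h5 : (rep c' : X) ∈ connectedComponent (rep c) := pathComponent_subset_component _ h4
    rw [← hrep c, ← hrep c']
    exact (ConnectedComponents.coe_eq_coe'.2 h5).symm
  have h := ENat.card_le_card_of_injective hinj
  refine h.trans ?_
  rw [ENat.card_eq_coe_fintype_card]
  simp

end

end Pool.Agent.H82.Nodal
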